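import Pool.Agent.Helper903.ES.Main

/-!
# Inverse Turán numbers of odd paths: blocks and a Kővári–Sós–Turán count
-/

set_option autoImplicit false
set_option linter.unusedSectionVars false
open Finset
open scoped Classical

namespace Pool.Agent.Q263.InvT

variable {V : Type*} [Fintype V] {G : SimpleGraph V}

/-- Vertex-disjoint blocks: `L` is the set of leaves and `b v` the set of hubs of the leaf `v`. -/
structure Cfg (G : SimpleGraph V) (c : ℕ) (L : Finset V) (b : V → Finset V) : Prop where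
  adj : ∀ v ∈ L, ∀ h ∈ b v, G.Adj v h
  card : ∀ v ∈ L, (b v).card = c
  eqd : ∀ v ∈ L, ∀ w ∈ L, b v = b w ∨ Disjoint (b v) (b w)
  out : ∀ v ∈ L, ∀ w ∈ L, w ∉ b v

/-- The graph formed by the blocks. -/
def cg (L : Finset V) (b : V → Finset V) : SimpleGraph V :=
  SimpleGraph.fromRel fun x y => x ∈ L ∧ y ∈ b x

theorem cg_adj {L : Finset V} {b : V → Finset V} {x y : V} (h : (cg L b).Adj x y) :
    (x ∈ L ∧ y ∈ b x) ∨ (y ∈ L ∧ x ∈ b y) := by
  rw [cg, SimpleGraph.fromRel_adj] at h
  exact h.2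

theorem cg_le {c : ℕ} {L : Finset V} {b : V → Finset V} (h : Cfg G c L b) : cg L b ≤ G := by
  intro x y hxy
  rcases cg_adj hxy with ⟨h1, h2⟩ | ⟨h1, h2⟩
  · exact h.adj x h1 y h2
  · exact (h.adj y h1 x h2).symm

theorem chain {c : ℕ} {L : Finset V} {b : V → Finset V} (h : Cfg G c L b) (y : ℕ → V)
    (h0 : y 0 ∈ L) (m : ℕ) (hadj : ∀ i, i < 2 * m + 1 → (cg L b).Adj (y i) (y (i + 1))) :
    ∀ i ≤ m, y (2 * i) ∈ L ∧ b (y (2 * i)) = b (y 0) ∧ y (2 * i + 1) ∈ b (y 0) := by
  intro i
  induction i with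
  | zero =>
    intro _
    refine ⟨h0, rfl, ?_⟩
    rcases cg_adj (hadj 0 (by omega)) with ⟨h1, h2⟩ | ⟨h1, h2⟩
    · exact h2
    · exact absurd h2 (h.out _ h1 _ h0)
  | succ i ih =>
    intro hi
    obtain ⟨h1, h2, h3⟩ := ih (by omega)
    have h4 : y (2 * i + 1) ∉ L := fun hL => h.out _ h0 _ hL h3
    have h5 : y (2 * i + 2) ∈ L ∧ y (2 * i + 1) ∈ b (y (2 * i + 2)) := by
      rcases cg_adj (hadj (2 * i + 1) (by omega)) with ⟨h6, -⟩ | h6
      · exact absurd h6 h4
      · exact h6
    have h6 : b (y (2 * i + 2)) = b (y 0) := by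
      rcases h.eqd _ h5.1 _ h0 with h7 | h7
      · exact h7
      · exact absurd h3 (disjoint_left.mp h7 h5.2)
    have e1 : 2 * (i + 1) = 2 * i + 2 := by ring
    rw [e1]
    refine ⟨h5.1, h6, ?_⟩
    rcases cg_adj (hadj (2 * i + 2) (by omega)) with ⟨-, h8⟩ | ⟨h7, h8⟩
    · rwa [h6] at h8
    · exact absurd h8 (h.out _ h7 _ h5.1)

/-- Blocks with at most `t` hubs contain no path with `2 t + 1` edges. -/
theorem cg_free {c t : ℕ} (ht : 1 ≤ t) (hc : c ≤ t) {L : Finset V} {b : V → Finset V}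
    (h : Cfg G c L b) : (SimpleGraph.pathGraph (2 * t + 2)).Free (cg L b) := by
  rintro ⟨f⟩
  have hinj : Function.Injective f := f.injective
  let x : ℕ → V := fun i => if hi : i < 2 * t + 2 then f ⟨i, hi⟩ else f ⟨0, by omega⟩
  have hx : ∀ i (hi : i < 2 * t + 2), x i = f ⟨i, hi⟩ := fun i hi => by simp [x, hi]
  have hxinj : ∀ i j, i < 2 * t + 2 → j < 2 * t + 2 → x i = x j → i = j := by
    intro i j hi hj hij
    rw [hx i hi, hx j hj] at hij
    exact congrArg Fin.val (hinj hij)
  have hxadj : ∀ i, i < 2 * t + 1 → (cg L b).Adj (x i) (x (i + 1)) := by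
    intro i hi
    rw [hx i (by omega), hx (i + 1) (by omega)]
    apply f.toHom.map_adj
    rw [SimpleGraph.pathGraph_adj]
    left; rfl
  by_cases h0 : x 0 ∈ L
  · have hch := chain h x h0 t hxadj
    have h1 : ((range (t + 1)).image fun i => x (2 * i + 1)) ⊆ b (x 0) := by
      intro z hz
      rw [mem_image] at hz
      obtain ⟨i, hi, rfl⟩ := hz
      rw [mem_range] at hi
      exact (hch i (by omega)).2.2
    have h2 := card_le_card h1
    rw [card_image_of_injOn, card_range, h.card _ h0] at h2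
    · omega
    · intro i hi j hj hij
      rw [mem_coe, mem_range] at hi hj
      have := hxinj (2 * i + 1) (2 * j + 1) (by omega) (by omega) hij
      omega
  · have h1 : x 1 ∈ L ∧ x 0 ∈ b (x 1) := by
      rcases cg_adj (hxadj 0 (by omega)) with ⟨h1, -⟩ | h1
      · exact absurd h1 h0
      · exact h1
    have hch := chain h (fun i => x (i + 1)) h1.1 (t - 1)
      (fun i hi => hxadj (i + 1) (by omega))
    have h2 : ((range (t + 1)).image fun i => x (2 * i)) ⊆ b (x 1) := by
      intro z hz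
      rw [mem_image] at hz
      obtain ⟨i, hi, rfl⟩ := hz
      rw [mem_range] at hi
      rcases Nat.eq_zero_or_pos i with rfl | hpos
      · exact h1.2
      · have := (hch (i - 1) (by omega)).2.2
        have e : 2 * (i - 1) + 1 + 1 = 2 * i := by omega
        simp only [e] at this
        exact this
    have h3 := card_le_card h2
    rw [card_image_of_injOn, card_range, h.card _ h1.1] at h3
    · omega
    · intro i hi j hj hij
      rw [mem_coe, mem_range] at hi hj
      have := hxinj (2 * i) (2 * j) (by omega) (by omega) hij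
      omega

theorem cg_card {c : ℕ} {L : Finset V} {b : V → Finset V} (h : Cfg G c L b) :
    c * L.card ≤ (cg L b).edgeSet.ncard := by
  have h1 : (L.sigma b).card = c * L.card := by
    rw [card_sigma, sum_congr rfl h.card, sum_const, smul_eq_mul, mul_comm]
  rw [← h1, ← Set.ncard_coe_finset]
  apply Set.ncard_le_ncard_of_injOn (fun p => s(p.1, p.2))
  · rintro ⟨v, g⟩ hp
    rw [mem_coe, mem_sigma] at hp
    rw [SimpleGraph.mem_edgeSet, cg, SimpleGraph.fromRel_adj]
    refine ⟨?_, Or.inl hp⟩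
    intro hvg
    have hvg' : v = g := hvg
    subst hvg'
    exact h.out _ hp.1 _ hp.1 hp.2
  · rintro ⟨v, g⟩ hp ⟨v', g'⟩ hp' heq
    rw [mem_coe, mem_sigma] at hp hp'
    simp only [Sym2.eq_iff] at heq
    rcases heq with ⟨rfl, rfl⟩ | ⟨rfl, rfl⟩
    · rfl
    · exact absurd hp'.2 (h.out _ hp'.1 _ hp.1)

/-- The number of edges of blocks with at most `t` hubs. -/
theorem cfg_lt {c t k : ℕ} (ht : 1 ≤ t) (hc : c ≤ t)
    (hG : ∀ H : SimpleGraph V, H ≤ G → (SimpleGraph.pathGraph (2 * t + 2)).Free H →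
      H.edgeSet.ncard < k) {L : Finset V} {b : V → Finset V} (h : Cfg G c L b) :
    c * L.card < k :=
  (cg_card h).trans_lt (hG _ (cg_le h) (cg_free ht hc h))

/-- Kővári–Sós–Turán. -/
theorem kst (A B : Finset V) (t s : ℕ) (ht : 1 ≤ t)
    (h : ∀ T : Finset V, T ⊆ A → T.card = t →
      (B.filter fun y => ∀ x ∈ T, G.Adj x y).card ≤ s) :
    (∑ y ∈ B, (A.filter fun x => G.Adj x y).card - t * B.card) ^ t ≤
      s * A.card ^ t * B.card ^ (t - 1) := by
  set d : V → ℕ := fun y => (A.filter fun x => G.Adj x y).card with hd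
  have h1 : ∑ y ∈ B, (d y).choose t ≤ s * A.card.choose t := by
    have e1 : ∀ y ∈ B, (d y).choose t =
        ∑ T ∈ A.powersetCard t, if ∀ x ∈ T, G.Adj x y then 1 else 0 := by
      intro y _
      rw [hd, ← card_powersetCard, ← card_filter]
      congr 1
      ext T
      rw [mem_filter, mem_powersetCard, mem_powersetCard]
      constructor
      · rintro ⟨h1, h2⟩
        exact ⟨⟨fun z hz => (mem_filter.mp (h1 hz)).1, h2⟩,
          fun z hz => (mem_filter.mp (h1 hz)).2⟩
      · rintro ⟨⟨h1, h2⟩, h3⟩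
        exact ⟨fun z hz => mem_filter.mpr ⟨h1 hz, h3 z hz⟩, h2⟩
    rw [sum_congr rfl e1, sum_comm]
    calc ∑ T ∈ A.powersetCard t, ∑ y ∈ B, (if ∀ x ∈ T, G.Adj x y then 1 else 0)
        ≤ ∑ T ∈ A.powersetCard t, s := by
          apply sum_le_sum
          intro T hT
          rw [mem_powersetCard] at hT
          rw [← card_filter]
          exact h T hT.1 hT.2
      _ = s * A.card.choose t := by
          rw [sum_const, card_powersetCard, smul_eq_mul, mul_comm]
  have h2 : ∑ y ∈ B, (d y - t) ^ t ≤ s * A.card ^ t := by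
    calc ∑ y ∈ B, (d y - t) ^ t ≤ ∑ y ∈ B, (d y).descFactorial t := by
          apply sum_le_sum
          intro y _
          refine le_trans ?_ (Nat.pow_sub_le_descFactorial (d y) t)
          apply Nat.pow_le_pow_left
          omega
      _ = t.factorial * ∑ y ∈ B, (d y).choose t := by
          rw [mul_sum]
          apply sum_congr rfl
          intro y _
          rw [Nat.descFactorial_eq_factorial_mul_choose]
      _ ≤ t.factorial * (s * A.card.choose t) := Nat.mul_le_mul_left _ h1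
      _ = s * A.card.descFactorial t := by
          rw [Nat.descFactorial_eq_factorial_mul_choose]; ring
      _ ≤ s * A.card ^ t := Nat.mul_le_mul_left _ (Nat.descFactorial_le_pow _ _)
  have h3 : ∑ y ∈ B, d y - t * B.card ≤ ∑ y ∈ B, (d y - t) := by
    rw [Nat.sub_le_iff_le_add]
    calc ∑ y ∈ B, d y ≤ ∑ y ∈ B, ((d y - t) + t) := by
          apply sum_le_sum
          intro y _
          omega
      _ = ∑ y ∈ B, (d y - t) + t * B.card := by
          rw [sum_add_distrib, sum_const, smul_eq_mul, mul_comm t]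
  have h4 : (∑ y ∈ B, (d y - t)) ^ t ≤ B.card ^ (t - 1) * ∑ y ∈ B, (d y - t) ^ t := by
    rcases B.eq_empty_or_nonempty with rfl | hB
    · simp; omega
    have hBpos : (0 : ℝ) < (B.card : ℝ) := by exact_mod_cast card_pos.mpr hB
    have h5 := pow_sum_div_card_le_sum_pow (s := B) (f := fun y => ((d y - t : ℕ) : ℝ))
      (n := t - 1) (fun y _ => by positivity)
    rw [show t - 1 + 1 = t by omega, div_le_iff₀ (by positivity)] at h5
    have h6 : ((∑ y ∈ B, (d y - t) : ℕ) : ℝ) ^ t ≤
        ((B.card ^ (t - 1) * ∑ y ∈ B, (d y - t) ^ t : ℕ) : ℝ) := by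
      push_cast at h5 ⊢
      linarith
    exact_mod_cast h6
  calc (∑ y ∈ B, d y - t * B.card) ^ t ≤ (∑ y ∈ B, (d y - t)) ^ t := Nat.pow_le_pow_left h3 t
    _ ≤ B.card ^ (t - 1) * ∑ y ∈ B, (d y - t) ^ t := h4
    _ ≤ B.card ^ (t - 1) * (s * A.card ^ t) := Nat.mul_le_mul_left _ h2
    _ = s * A.card ^ t * B.card ^ (t - 1) := by ring

end Pool.Agent.Q263.InvT
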