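import Mathlib

/-!
# Boxes in dense sets of tuples
-/

set_option autoImplicit false
set_option linter.unusedSectionVars false
open Finset
open scoped Classical

namespace Pool.Agent.Q263.InvT

variable {V Y : Type*}

/-- Kővári–Sós–Turán for a family of sets. -/
theorem kstF (A : Finset V) (B : Finset Y) (F : Y → Finset V) (hF : ∀ y ∈ B, F y ⊆ A) (t c : ℕ)
    (ht : 1 ≤ t) (h : ∀ T : Finset V, T ⊆ A → T.card = t → (B.filter fun y => T ⊆ F y).card ≤ c) :
    (∑ y ∈ B, (F y).card - t * B.card) ^ t ≤ c * A.card ^ t * B.card ^ (t - 1) := by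
  have h1 : ∑ y ∈ B, (F y).card.choose t ≤ c * A.card.choose t := by
    have e1 : ∀ y ∈ B, (F y).card.choose t =
        ∑ T ∈ A.powersetCard t, if T ⊆ F y then 1 else 0 := by
      intro y hy
      rw [← card_powersetCard, ← card_filter]
      congr 1
      ext T
      rw [mem_filter, mem_powersetCard, mem_powersetCard]
      constructor
      · rintro ⟨h1, h2⟩
        exact ⟨⟨h1.trans (hF y hy), h2⟩, h1⟩
      · rintro ⟨⟨h1, h2⟩, h3⟩
        exact ⟨h3, h2⟩
    rw [sum_congr rfl e1, sum_comm]
    calc ∑ T ∈ A.powersetCard t, ∑ y ∈ B, (if T ⊆ F y then 1 else 0)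
        ≤ ∑ T ∈ A.powersetCard t, c := by
          apply sum_le_sum
          intro T hT
          rw [mem_powersetCard] at hT
          rw [← card_filter]
          exact h T hT.1 hT.2
      _ = c * A.card.choose t := by
          rw [sum_const, card_powersetCard, smul_eq_mul, mul_comm]
  have h2 : ∑ y ∈ B, ((F y).card - t) ^ t ≤ c * A.card ^ t := by
    calc ∑ y ∈ B, ((F y).card - t) ^ t ≤ ∑ y ∈ B, (F y).card.descFactorial t := by
          apply sum_le_sum
          intro y _
          refine le_trans ?_ (Nat.pow_sub_le_descFactorial (F y).card t)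
          apply Nat.pow_le_pow_left
          omega
      _ = t.factorial * ∑ y ∈ B, (F y).card.choose t := by
          rw [mul_sum]
          apply sum_congr rfl
          intro y _
          rw [Nat.descFactorial_eq_factorial_mul_choose]
      _ ≤ t.factorial * (c * A.card.choose t) := Nat.mul_le_mul_left _ h1
      _ = c * A.card.descFactorial t := by
          rw [Nat.descFactorial_eq_factorial_mul_choose]; ring
      _ ≤ c * A.card ^ t := Nat.mul_le_mul_left _ (Nat.descFactorial_le_pow _ _)
  have h3 : ∑ y ∈ B, (F y).card - t * B.card ≤ ∑ y ∈ B, ((F y).card - t) := by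
    rw [Nat.sub_le_iff_le_add]
    calc ∑ y ∈ B, (F y).card ≤ ∑ y ∈ B, (((F y).card - t) + t) := by
          apply sum_le_sum
          intro y _
          omega
      _ = ∑ y ∈ B, ((F y).card - t) + t * B.card := by
          rw [sum_add_distrib, sum_const, smul_eq_mul, mul_comm t]
  have h4 : (∑ y ∈ B, ((F y).card - t)) ^ t ≤ B.card ^ (t - 1) * ∑ y ∈ B, ((F y).card - t) ^ t := by
    rcases B.eq_empty_or_nonempty with rfl | hB
    · simp; omega
    have hBpos : (0 : ℝ) < (B.card : ℝ) := by exact_mod_cast card_pos.mpr hB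
    have h5 := pow_sum_div_card_le_sum_pow (s := B) (f := fun y => (((F y).card - t : ℕ) : ℝ))
      (n := t - 1) (fun y _ => by positivity)
    rw [show t - 1 + 1 = t by omega, div_le_iff₀ (by positivity)] at h5
    have h6 : ((∑ y ∈ B, ((F y).card - t) : ℕ) : ℝ) ^ t ≤
        ((B.card ^ (t - 1) * ∑ y ∈ B, ((F y).card - t) ^ t : ℕ) : ℝ) := by
      push_cast at h5 ⊢
      linarith
    exact_mod_cast h6
  calc (∑ y ∈ B, (F y).card - t * B.card) ^ t ≤ (∑ y ∈ B, ((F y).card - t)) ^ t :=
        Nat.pow_le_pow_left h3 t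
    _ ≤ B.card ^ (t - 1) * ∑ y ∈ B, ((F y).card - t) ^ t := h4
    _ ≤ B.card ^ (t - 1) * (c * A.card ^ t) := Nat.mul_le_mul_left _ h2
    _ = c * A.card ^ t * B.card ^ (t - 1) := by ring

/-- Erdős's box theorem: a dense set of tuples contains a box. -/
theorem box (s : ℕ) (hs : 1 ≤ s) (q : ℕ) : ∀ δ : ℝ, 0 < δ → ∃ r0 : ℕ,
    ∀ (V : Type) (R : Finset V),
    r0 ≤ R.card → ∀ T : Finset (Fin q → V), (∀ x ∈ T, ∀ i, x i ∈ R) →
    δ * (R.card : ℝ) ^ q ≤ T.card →
    ∃ X : Fin q → Finset V, (∀ i, (X i).card = s) ∧ ∀ x : Fin q → V, (∀ i, x i ∈ X i) → x ∈ T := by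
  induction q with
  | zero =>
    intro δ hδ
    refine ⟨0, fun V R _ T _ hT => ⟨fun i => i.elim0, fun i => i.elim0, fun x _ => ?_⟩⟩
    have hpos : (0 : ℝ) < T.card := by
      have : δ * (R.card : ℝ) ^ 0 = δ := by simp
      rw [this] at hT
      linarith
    obtain ⟨y, hy⟩ := card_pos.mp (by exact_mod_cast hpos : 0 < T.card)
    have : x = y := funext fun i => i.elim0
    rw [this]; exact hy
  | succ q ih =>
    intro δ hδ
    have hδ' : 0 < (δ / 2) ^ s / 2 := by positivity
    obtain ⟨r0, hr0⟩ := ih ((δ / 2) ^ s / 2) hδ'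
    obtain ⟨r1, hr1⟩ := exists_nat_gt (2 * (s : ℝ) / δ)
    refine ⟨max (max r0 r1) 1, fun V R hR T hTR hT => ?_⟩
    have hRr0 : r0 ≤ R.card := le_trans (le_trans (le_max_left _ _) (le_max_left _ _)) hR
    have hRr1 : r1 ≤ R.card := le_trans (le_trans (le_max_right _ _) (le_max_left _ _)) hR
    have hR1 : 1 ≤ R.card := le_trans (le_max_right _ _) hR
    have hRp : (0 : ℝ) < R.card := by exact_mod_cast hR1
    have hRs : 2 * (s : ℝ) < δ * R.card := by
      have : 2 * (s : ℝ) / δ < R.card := lt_of_lt_of_le hr1 (by exact_mod_cast hRr1)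
      rw [div_lt_iff₀ hδ] at this
      linarith
    set B : Finset (Fin q → V) := Fintype.piFinset fun _ => R with hB
    have hBc : B.card = R.card ^ q := by
      rw [hB, Fintype.card_piFinset]; simp
    let F : (Fin q → V) → Finset V := fun y => R.filter fun a => Fin.cons a y ∈ T
    have hsumF : ∑ y ∈ B, (F y).card = T.card := by
      have e : T = ((B ×ˢ R).filter
          (fun p : (Fin q → V) × V => (Fin.cons p.2 p.1 : Fin (q + 1) → V) ∈ T)).image
          (fun p : (Fin q → V) × V => (Fin.cons p.2 p.1 : Fin (q + 1) → V)) := by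
        ext x
        rw [mem_image]
        constructor
        · intro hx
          refine ⟨(Fin.tail x, x 0), ?_, Fin.cons_self_tail x⟩
          rw [mem_filter, mem_product]
          refine ⟨⟨?_, hTR x hx 0⟩, ?_⟩
          · rw [hB, Fintype.mem_piFinset]
            intro i
            exact hTR x hx i.succ
          · show Fin.cons (x 0) (Fin.tail x) ∈ T
            rw [Fin.cons_self_tail]; exact hx
        · rintro ⟨p, hp, rfl⟩
          exact (mem_filter.mp hp).2
      rw [e, card_image_of_injective, card_filter, sum_product]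
      · apply sum_congr rfl
        intro y _
        rw [← card_filter]
      · rintro ⟨y, a⟩ ⟨y', a'⟩ h
        have h' : (Fin.cons a y : Fin (q + 1) → V) = Fin.cons a' y' := h
        rw [Fin.cons_inj] at h'
        exact Prod.ext h'.2 h'.1
    -- a set with many common tuples
    have hex : ∃ S : Finset V, S ⊆ R ∧ S.card = s ∧
        (δ / 2) ^ s / 2 * (R.card : ℝ) ^ q ≤ (B.filter fun y => S ⊆ F y).card := by
      by_contra hcon
      push Not at hcon
      set c : ℕ := ⌊(δ / 2) ^ s / 2 * (R.card : ℝ) ^ q⌋₊ with hc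
      have hcle : (c : ℝ) ≤ (δ / 2) ^ s / 2 * (R.card : ℝ) ^ q := Nat.floor_le (by positivity)
      have hk := kstF R B F (fun y _ => filter_subset _ _) s c hs (by
        intro S hS hSc
        apply Nat.le_floor
        exact (hcon S hS hSc).le)
      rw [hsumF, hBc] at hk
      have h1 : (((T.card - s * R.card ^ q) ^ s : ℕ) : ℝ) ≤
          ((c * R.card ^ s * (R.card ^ q) ^ (s - 1) : ℕ) : ℝ) := by exact_mod_cast hk
      push_cast at h1
      have h2 : (δ / 2) * (R.card : ℝ) * (R.card : ℝ) ^ q ≤ ((T.card - s * R.card ^ q : ℕ) : ℝ) := by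
        have h3 : (T.card : ℝ) ≤ ((T.card - s * R.card ^ q : ℕ) : ℝ) + s * (R.card : ℝ) ^ q := by
          have : T.card ≤ (T.card - s * R.card ^ q) + s * R.card ^ q := by omega
          exact_mod_cast this
        have h4 : δ * (R.card : ℝ) ^ (q + 1) ≤ T.card := hT
        have h5 : (s : ℝ) * (R.card : ℝ) ^ q ≤ (δ * R.card / 2) * (R.card : ℝ) ^ q := by
          apply mul_le_mul_of_nonneg_right _ (by positivity)
          linarith
        rw [pow_succ] at h4
        nlinarith
      have h3 : ((δ / 2) * (R.card : ℝ) * (R.card : ℝ) ^ q) ^ s ≤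
          (δ / 2) ^ s / 2 * (R.card : ℝ) ^ q * (R.card : ℝ) ^ s * ((R.card : ℝ) ^ q) ^ (s - 1) := by
        calc _ ≤ ((T.card - s * R.card ^ q : ℕ) : ℝ) ^ s := by gcongr
          _ ≤ (c : ℝ) * (R.card : ℝ) ^ s * ((R.card : ℝ) ^ q) ^ (s - 1) := h1
          _ ≤ _ := by gcongr
      have h4 : (δ / 2) ^ s / 2 * (R.card : ℝ) ^ q * (R.card : ℝ) ^ s * ((R.card : ℝ) ^ q) ^ (s - 1) =
          ((δ / 2) * (R.card : ℝ) * (R.card : ℝ) ^ q) ^ s / 2 := by
        have : ((R.card : ℝ) ^ q) ^ s = (R.card : ℝ) ^ q * ((R.card : ℝ) ^ q) ^ (s - 1) := by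
          rw [← pow_succ', show s - 1 + 1 = s by omega]
        rw [mul_pow, mul_pow, this]
        ring
      rw [h4] at h3
      have h5 : 0 < ((δ / 2) * (R.card : ℝ) * (R.card : ℝ) ^ q) ^ s := by positivity
      linarith
    obtain ⟨S, hSR, hSc, hSB⟩ := hex
    obtain ⟨X, hX1, hX2⟩ := hr0 V R hRr0 (B.filter fun y => S ⊆ F y) (by
      intro y hy i
      have := (mem_filter.mp hy).1
      rw [hB, Fintype.mem_piFinset] at this
      exact this i) hSB
    refine ⟨Fin.cons S X, ?_, ?_⟩
    · intro i
      refine Fin.cases ?_ ?_ i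
      · simpa using hSc
      · intro j; simpa using hX1 j
    · intro x hx
      have h0 : x 0 ∈ S := by simpa using hx 0
      have h1 : Fin.tail x ∈ B.filter fun y => S ⊆ F y := by
        apply hX2
        intro i
        have := hx i.succ
        rw [Fin.cons_succ] at this
        exact this
      have h2 := (mem_filter.mp h1).2 h0
      have h3 := (mem_filter.mp h2).2
      rwa [Fin.cons_self_tail] at h3

/-- A box contains an injective labelled blow-up. -/
theorem disj {q s : ℕ} (X : Fin q → Finset V) (hX : ∀ i, (X i).card = q * s) :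
    ∃ f : Fin q × Fin s → V, Function.Injective f ∧ ∀ p, f p ∈ X p.1 := by
  have h := (Finset.all_card_le_biUnion_card_iff_exists_injective
    (fun p : Fin q × Fin s => X p.1)).mp (by
      intro J
      rcases J.eq_empty_or_nonempty with rfl | ⟨p, hp⟩
      · simp
      calc J.card ≤ Fintype.card (Fin q × Fin s) := card_le_univ _
        _ = q * s := by simp
        _ = (X p.1).card := (hX p.1).symm
        _ ≤ (J.biUnion fun p => X p.1).card := card_le_card (by
            intro z hz
            rw [mem_biUnion]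
            exact ⟨p, hp, hz⟩))
  exact h

end Pool.Agent.Q263.InvT
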