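import Pool.Agent.Q263.InvT.Basic

/-!
# Inverse Turán numbers of odd paths: the structure of the host graph
-/

set_option autoImplicit false
set_option linter.unusedSectionVars false
open Finset
open scoped Classical

namespace Pool.Agent.Q263.InvT

variable {V : Type*} [Fintype V] {G : SimpleGraph V}

/-- Every subgraph with `k` edges contains a path with `2 t + 1` edges. -/
def Small (G : SimpleGraph V) (t k : ℕ) : Prop :=
  ∀ H : SimpleGraph V, H ≤ G → (SimpleGraph.pathGraph (2 * t + 2)).Free H → H.edgeSet.ncard < k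

theorem star_bound {t k : ℕ} (ht : 1 ≤ t) (hG : Small G t k) (W : Finset V) (g : V → V)
    (hg : ∀ w ∈ W, g w ∉ W ∧ G.Adj w (g w)) : W.card < k := by
  have h : Cfg G 1 W (fun v => {g v}) := by
    refine ⟨?_, ?_, ?_, ?_⟩
    · intro v hv y hy
      rw [mem_singleton] at hy
      rw [hy]; exact (hg v hv).2
    · intro v _; exact card_singleton _
    · intro v _ w _
      by_cases hvw : g v = g w
      · left; rw [hvw]
      · right; rw [disjoint_singleton]; exact hvw
    · intro v hv w hw hmem
      rw [mem_singleton] at hmem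
      exact (hg v hv).1 (hmem ▸ hw)
  have := cfg_lt ht ht hG h
  omega

/-- The non-isolated vertices. -/
noncomputable def ni (G : SimpleGraph V) : Finset V := univ.filter fun x => ∃ y, G.Adj x y

theorem mem_ni {x : V} : x ∈ ni G ↔ ∃ y, G.Adj x y := by simp [ni]

theorem ni_bound {t k : ℕ} (ht : 1 ≤ t) (hG : Small G t k) : (ni G).card ≤ 2 * k := by
  let F : Finset (Finset V) := (ni G).powerset.filter fun I => ∀ x ∈ I, ∀ y ∈ I, ¬ G.Adj x y
  have hF : F.Nonempty := ⟨∅, by simp [F]⟩
  obtain ⟨I, hI, hmax⟩ := exists_max_image F card hF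
  have hI' : I ⊆ ni G ∧ ∀ x ∈ I, ∀ y ∈ I, ¬ G.Adj x y := by
    simpa [F] using hI
  have h1 : I.card < k := by
    have hc : ∀ w : V, ∃ y, w ∈ I → y ∉ I ∧ G.Adj w y := by
      intro w
      by_cases hw : w ∈ I
      · obtain ⟨y, hy⟩ := mem_ni.mp (hI'.1 hw)
        exact ⟨y, fun _ => ⟨fun hyI => hI'.2 w hw y hyI hy, hy⟩⟩
      · exact ⟨w, fun h => absurd h hw⟩
    choose g hg using hc
    exact star_bound ht hG I g fun w hw => hg w hw
  have h2 : (ni G \ I).card < k := by
    have hc : ∀ w : V, ∃ y, w ∈ ni G \ I → y ∉ ni G \ I ∧ G.Adj w y := by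
      intro w
      by_cases hw : w ∈ ni G \ I
      · rw [mem_sdiff] at hw
        by_contra hcon
        push Not at hcon
        have hno : ∀ y ∈ I, ¬ G.Adj w y := by
          intro y hy hadj
          have := (hcon y).2
          exact this (fun h => (mem_sdiff.mp h).2 hy) hadj
        have hins : insert w I ∈ F := by
          simp only [F, mem_filter, mem_powerset]
          refine ⟨insert_subset hw.1 hI'.1, ?_⟩
          intro x hx y hy hadj
          rw [mem_insert] at hx hy
          rcases hx with rfl | hx <;> rcases hy with rfl | hy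
          · exact G.loopless.irrefl _ hadj
          · exact hno y hy hadj
          · exact hno x hx hadj.symm
          · exact hI'.2 x hx y hy hadj
        have := hmax _ hins
        rw [card_insert_of_notMem hw.2] at this
        omega
      · exact ⟨w, fun h => absurd h hw⟩
    choose g hg using hc
    exact star_bound ht hG _ g fun w hw => hg w hw
  have h3 := card_sdiff_add_card_eq_card hI'.1
  omega

theorem pairs_eq (A B : Finset V) : ((A ×ˢ B).filter fun p => G.Adj p.1 p.2).card =
    ∑ y ∈ B, (A.filter fun x => G.Adj x y).card := by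
  rw [card_filter, sum_product_right]
  apply sum_congr rfl
  intro y _
  rw [← card_filter]

theorem two_edges : 2 * G.edgeSet.ncard =
    ((univ : Finset (V × V)).filter fun p => G.Adj p.1 p.2).card := by
  have h1 := G.sum_degrees_eq_twice_card_edges
  have h2 : G.edgeSet.ncard = G.edgeFinset.card := by
    rw [← SimpleGraph.coe_edgeFinset, Set.ncard_coe_finset]
  rw [h2, ← h1, ← univ_product_univ, pairs_eq]
  apply sum_congr rfl
  intro v _
  rw [← SimpleGraph.card_neighborFinset_eq_degree]
  congr 1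
  ext w
  simp [SimpleGraph.adj_comm]

theorem core {t k s : ℕ} (ht : 1 ≤ t) (hG : Small G t k) :
    ∃ a x y h n : ℕ, t * a < k ∧ n ≤ 2 * k ∧ s * h ≤ k ∧
      (x - t * n) ^ t ≤ s * n ^ (2 * t - 1) ∧
      (y - t * n) ^ t ≤ (s + t) * n ^ (2 * t - 1) ∧
      2 * G.edgeSet.ncard ≤ a * a + 2 * (h * n) + x + 2 * y := by
  -- an optimal configuration
  let F : Finset (Finset V × (V → Finset V)) := univ.filter fun p => Cfg G t p.1 p.2
  have hF : F.Nonempty := by
    refine ⟨(∅, fun _ => ∅), ?_⟩
    simp only [F, mem_filter, mem_univ, true_and]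
    exact ⟨by simp, by simp, by simp, by simp⟩
  let Φ : Finset V × (V → Finset V) → ℤ := fun p => (p.1.card : ℤ) - s * ((p.1.image p.2).card : ℤ)
  obtain ⟨⟨L, b⟩, hp, hmax⟩ := exists_max_image F Φ hF
  have hcfg : Cfg G t L b := (mem_filter.mp hp).2
  have hmax' : ∀ (L' : Finset V) (b' : V → Finset V), Cfg G t L' b' →
      (L'.card : ℤ) - s * ((L'.image b').card : ℤ) ≤ (L.card : ℤ) - s * ((L.image b).card : ℤ) := by
    intro L' b' h
    exact hmax (L', b') (mem_filter.mpr ⟨mem_univ _, h⟩)
  set m := (L.image b).card with hm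
  have h0 : s * m ≤ L.card := by
    have := hmax' ∅ (fun _ => ∅) ⟨by simp, by simp, by simp, by simp⟩
    simp at this
    exact_mod_cast (by linarith : (s : ℤ) * (m : ℤ) ≤ (L.card : ℤ))
  have hLk : t * L.card < k := cfg_lt ht le_rfl hG hcfg
  set Hb := L.biUnion b with hHb
  have hHcard : Hb.card ≤ t * m := by
    have e1 : Hb = (L.image b).biUnion id := by
      rw [hHb, image_biUnion]
      rfl
    rw [e1, hm, mul_comm]
    apply card_biUnion_le_card_mul
    intro S hS
    rw [mem_image] at hS
    obtain ⟨v, hv, rfl⟩ := hS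
    exact (hcfg.card v hv).le
  set U := ni G \ (L ∪ Hb) with hU
  have hUL : ∀ z ∈ U, z ∉ L := fun z hz hzL => (mem_sdiff.mp hz).2 (mem_union_left _ hzL)
  have hUH : ∀ z ∈ U, ∀ v ∈ L, z ∉ b v := fun z hz v hv hzb =>
    (mem_sdiff.mp hz).2 (mem_union_right _ (mem_biUnion.mpr ⟨v, hv, hzb⟩))
  have hLn : L ⊆ ni G := by
    intro v hv
    have hne : (b v).Nonempty := by
      rw [← card_pos, hcfg.card v hv]; omega
    obtain ⟨z, hz⟩ := hne
    exact mem_ni.mpr ⟨z, hcfg.adj v hv z hz⟩
  have hUn : U ⊆ ni G := sdiff_subset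
  set n := (ni G).card with hn
  have hUc : U.card ≤ n := card_le_card hUn
  have hLc : L.card ≤ n := card_le_card hLn
  -- common neighbours of hubs in `U`
  have hTU : ∀ T : Finset V, T ⊆ U → T.card = t →
      (U.filter fun y => ∀ x ∈ T, G.Adj x y).card ≤ s := by
    intro T hT hTc
    set S := U.filter fun y => ∀ x ∈ T, G.Adj x y with hS
    have hSU : S ⊆ U := filter_subset _ _
    have hSadj : ∀ y ∈ S, ∀ x ∈ T, G.Adj x y := fun y hy => (mem_filter.mp hy).2
    have hST : ∀ y ∈ S, y ∉ T := fun y hy hyT => G.loopless.irrefl _ (hSadj y hy y hyT)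
    have hdis : Disjoint L S := disjoint_left.mpr fun z hz hzS => hUL z (hSU hzS) hz
    let b' : V → Finset V := fun v => if v ∈ L then b v else T
    have hb1 : ∀ v ∈ L, b' v = b v := fun v hv => by simp [b', hv]
    have hb2 : ∀ v ∈ S, b' v = T := fun v hv => by
      have : v ∉ L := hUL v (hSU hv)
      simp [b', this]
    have hTb : ∀ v ∈ L, Disjoint (b v) T := fun v hv =>
      disjoint_left.mpr fun z hz hzT => hUH z (hT hzT) v hv hz
    have hc : Cfg G t (L ∪ S) b' := by
      refine ⟨?_, ?_, ?_, ?_⟩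
      · intro v hv z hz
        rcases mem_union.mp hv with hv | hv
        · rw [hb1 v hv] at hz; exact hcfg.adj v hv z hz
        · rw [hb2 v hv] at hz; exact (hSadj v hv z hz).symm
      · intro v hv
        rcases mem_union.mp hv with hv | hv
        · rw [hb1 v hv]; exact hcfg.card v hv
        · rw [hb2 v hv]; exact hTc
      · intro v hv w hw
        rcases mem_union.mp hv with hv | hv <;> rcases mem_union.mp hw with hw | hw
        · rw [hb1 v hv, hb1 w hw]; exact hcfg.eqd v hv w hw
        · rw [hb1 v hv, hb2 w hw]; exact Or.inr (hTb v hv)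
        · rw [hb2 v hv, hb1 w hw]; exact Or.inr (hTb w hw).symm
        · rw [hb2 v hv, hb2 w hw]; exact Or.inl rfl
      · intro v hv w hw
        rcases mem_union.mp hv with hv | hv <;> rcases mem_union.mp hw with hw | hw
        · rw [hb1 v hv]; exact hcfg.out v hv w hw
        · rw [hb1 v hv]; exact hUH w (hSU hw) v hv
        · rw [hb2 v hv]; exact fun h => hUL w (hT h) hw
        · rw [hb2 v hv]; exact hST w hw
    have h1 := hmax' _ _ hc
    have h2 : ((L ∪ S).image b').card ≤ m + 1 := by
      have : (L ∪ S).image b' ⊆ insert T (L.image b) := by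
        intro z hz
        rw [mem_image] at hz
        obtain ⟨v, hv, rfl⟩ := hz
        rcases mem_union.mp hv with hv | hv
        · rw [hb1 v hv]; exact mem_insert_of_mem (mem_image_of_mem _ hv)
        · rw [hb2 v hv]; exact mem_insert_self _ _
      exact (card_le_card this).trans (card_insert_le _ _)
    rw [card_union_of_disjoint hdis] at h1
    by_contra hcon
    push Not at hcon
    have h3 : (s : ℤ) * ((((L ∪ S).image b').card : ℕ) : ℤ) ≤ s * ((m : ℤ) + 1) := by
      apply mul_le_mul_of_nonneg_left _ (by positivity)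
      exact_mod_cast h2
    have h4 : (s : ℤ) < (S.card : ℤ) := by exact_mod_cast hcon
    push_cast at h1
    linarith
  -- common neighbours in `U` of leaves
  have hTL : ∀ T : Finset V, T ⊆ L → T.card = t →
      (U.filter fun y => ∀ x ∈ T, G.Adj x y).card ≤ s + t := by
    intro T hT hTc
    set S := U.filter fun y => ∀ x ∈ T, G.Adj x y with hS
    have hSU : S ⊆ U := filter_subset _ _
    have hSadj : ∀ y ∈ S, ∀ x ∈ T, G.Adj x y := fun y hy => (mem_filter.mp hy).2
    have hST : ∀ y ∈ S, y ∉ T := fun y hy hyT => G.loopless.irrefl _ (hSadj y hy y hyT)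
    have hdis : Disjoint (L \ T) S :=
      disjoint_left.mpr fun z hz hzS => hUL z (hSU hzS) (mem_sdiff.mp hz).1
    let b' : V → Finset V := fun v => if v ∈ L then b v else T
    have hb1 : ∀ v ∈ L \ T, b' v = b v := fun v hv => by simp [b', (mem_sdiff.mp hv).1]
    have hb2 : ∀ v ∈ S, b' v = T := fun v hv => by
      have : v ∉ L := hUL v (hSU hv)
      simp [b', this]
    have hTb : ∀ v ∈ L, Disjoint (b v) T := fun v hv =>
      disjoint_left.mpr fun z hz hzT => hcfg.out v hv z (hT hzT) hz
    have hc : Cfg G t ((L \ T) ∪ S) b' := by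
      refine ⟨?_, ?_, ?_, ?_⟩
      · intro v hv z hz
        rcases mem_union.mp hv with hv | hv
        · rw [hb1 v hv] at hz; exact hcfg.adj v (mem_sdiff.mp hv).1 z hz
        · rw [hb2 v hv] at hz; exact (hSadj v hv z hz).symm
      · intro v hv
        rcases mem_union.mp hv with hv | hv
        · rw [hb1 v hv]; exact hcfg.card v (mem_sdiff.mp hv).1
        · rw [hb2 v hv]; exact hTc
      · intro v hv w hw
        rcases mem_union.mp hv with hv | hv <;> rcases mem_union.mp hw with hw | hw
        · rw [hb1 v hv, hb1 w hw]; exact hcfg.eqd v (mem_sdiff.mp hv).1 w (mem_sdiff.mp hw).1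
        · rw [hb1 v hv, hb2 w hw]; exact Or.inr (hTb v (mem_sdiff.mp hv).1)
        · rw [hb2 v hv, hb1 w hw]; exact Or.inr (hTb w (mem_sdiff.mp hw).1).symm
        · rw [hb2 v hv, hb2 w hw]; exact Or.inl rfl
      · intro v hv w hw
        rcases mem_union.mp hv with hv | hv <;> rcases mem_union.mp hw with hw | hw
        · rw [hb1 v hv]; exact hcfg.out v (mem_sdiff.mp hv).1 w (mem_sdiff.mp hw).1
        · rw [hb1 v hv]; exact hUH w (hSU hw) v (mem_sdiff.mp hv).1
        · rw [hb2 v hv]; exact (mem_sdiff.mp hw).2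
        · rw [hb2 v hv]; exact hST w hw
    have h1 := hmax' _ _ hc
    have h2 : (((L \ T) ∪ S).image b').card ≤ m + 1 := by
      have : ((L \ T) ∪ S).image b' ⊆ insert T (L.image b) := by
        intro z hz
        rw [mem_image] at hz
        obtain ⟨v, hv, rfl⟩ := hz
        rcases mem_union.mp hv with hv | hv
        · rw [hb1 v hv]; exact mem_insert_of_mem (mem_image_of_mem _ (mem_sdiff.mp hv).1)
        · rw [hb2 v hv]; exact mem_insert_self _ _
      exact (card_le_card this).trans (card_insert_le _ _)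
    have h5 : (L \ T).card + t = L.card := by
      rw [← hTc]; exact card_sdiff_add_card_eq_card hT
    rw [card_union_of_disjoint hdis] at h1
    by_contra hcon
    push Not at hcon
    have h3 : (s : ℤ) * (((((L \ T) ∪ S).image b').card : ℕ) : ℤ) ≤ s * ((m : ℤ) + 1) := by
      apply mul_le_mul_of_nonneg_left _ (by positivity)
      exact_mod_cast h2
    have h4 : (s : ℤ) + t < (S.card : ℤ) := by exact_mod_cast hcon
    have h6 : ((L \ T).card : ℤ) + t = L.card := by exact_mod_cast h5
    push_cast at h1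
    linarith
  have hx := kst U U t s ht hTU
  have hy := kst L U t (s + t) ht hTL
  refine ⟨L.card, ∑ y ∈ U, (U.filter fun x => G.Adj x y).card,
    ∑ y ∈ U, (L.filter fun x => G.Adj x y).card, Hb.card, n, hLk, ni_bound ht hG, ?_, ?_, ?_, ?_⟩
  · calc s * Hb.card ≤ s * (t * m) := Nat.mul_le_mul_left _ hHcard
      _ = t * (s * m) := by ring
      _ ≤ t * L.card := Nat.mul_le_mul_left _ h0
      _ ≤ k := hLk.le
  · calc _ ≤ (∑ y ∈ U, (U.filter fun x => G.Adj x y).card - t * U.card) ^ t := by
          apply Nat.pow_le_pow_left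
          have := Nat.mul_le_mul_left t hUc
          omega
      _ ≤ _ := hx
      _ ≤ s * n ^ t * n ^ (t - 1) := by gcongr
      _ = s * n ^ (2 * t - 1) := by
          rw [mul_assoc, ← pow_add]; congr 2; omega
  · calc _ ≤ (∑ y ∈ U, (L.filter fun x => G.Adj x y).card - t * U.card) ^ t := by
          apply Nat.pow_le_pow_left
          have := Nat.mul_le_mul_left t hUc
          omega
      _ ≤ _ := hy
      _ ≤ (s + t) * n ^ t * n ^ (t - 1) := by gcongr
      _ = (s + t) * n ^ (2 * t - 1) := by
          rw [mul_assoc, ← pow_add]; congr 2; omega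
  · rw [two_edges]
    have hsub : ((univ : Finset (V × V)).filter fun p => G.Adj p.1 p.2) ⊆
        (L ×ˢ L) ∪ (Hb ×ˢ ni G) ∪ (ni G ×ˢ Hb) ∪ ((U ×ˢ U).filter fun p => G.Adj p.1 p.2) ∪
          ((L ×ˢ U).filter fun p => G.Adj p.1 p.2) ∪ ((U ×ˢ L).filter fun p => G.Adj p.1 p.2) := by
      rintro ⟨x, y⟩ hxy
      simp only [mem_filter, mem_univ, true_and] at hxy
      have hx : x ∈ ni G := mem_ni.mpr ⟨y, hxy⟩
      have hy : y ∈ ni G := mem_ni.mpr ⟨x, hxy.symm⟩
      simp only [mem_union, mem_filter, mem_product]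
      by_cases hxH : x ∈ Hb
      · left; left; left; left; right; exact ⟨hxH, hy⟩
      by_cases hyH : y ∈ Hb
      · left; left; left; right; exact ⟨hx, hyH⟩
      by_cases hxL : x ∈ L <;> by_cases hyL : y ∈ L
      · left; left; left; left; left; exact ⟨hxL, hyL⟩
      · left; right
        refine ⟨⟨hxL, ?_⟩, hxy⟩
        rw [hU, mem_sdiff, mem_union]
        exact ⟨hy, by tauto⟩
      · right
        refine ⟨⟨?_, hyL⟩, hxy⟩
        rw [hU, mem_sdiff, mem_union]
        exact ⟨hx, by tauto⟩
      · left; left; right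
        refine ⟨⟨?_, ?_⟩, hxy⟩
        · rw [hU, mem_sdiff, mem_union]
          exact ⟨hx, by tauto⟩
        · rw [hU, mem_sdiff, mem_union]
          exact ⟨hy, by tauto⟩
    have hflip : ((U ×ˢ L).filter fun p => G.Adj p.1 p.2).card =
        ((L ×ˢ U).filter fun p => G.Adj p.1 p.2).card := by
      apply card_bij (fun p _ => p.swap)
      · rintro ⟨x, y⟩ hp
        simp only [mem_filter, mem_product, Prod.swap] at hp ⊢
        exact ⟨hp.1.symm, hp.2.symm⟩
      · rintro ⟨x, y⟩ _ ⟨x', y'⟩ _ h
        simp only [Prod.swap, Prod.mk.injEq] at h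
        exact Prod.ext h.2 h.1
      · rintro ⟨x, y⟩ hp
        simp only [mem_filter, mem_product] at hp
        refine ⟨(y, x), ?_, rfl⟩
        simp only [mem_filter, mem_product]
        exact ⟨hp.1.symm, hp.2.symm⟩
    have h1 := card_le_card hsub
    have h2 := card_union_le ((L ×ˢ L) ∪ (Hb ×ˢ ni G) ∪ (ni G ×ˢ Hb) ∪
      ((U ×ˢ U).filter fun p => G.Adj p.1 p.2) ∪ ((L ×ˢ U).filter fun p => G.Adj p.1 p.2))
      ((U ×ˢ L).filter fun p => G.Adj p.1 p.2)
    have h3 := card_union_le ((L ×ˢ L) ∪ (Hb ×ˢ ni G) ∪ (ni G ×ˢ Hb) ∪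
      ((U ×ˢ U).filter fun p => G.Adj p.1 p.2)) ((L ×ˢ U).filter fun p => G.Adj p.1 p.2)
    have h4 := card_union_le ((L ×ˢ L) ∪ (Hb ×ˢ ni G) ∪ (ni G ×ˢ Hb))
      ((U ×ˢ U).filter fun p => G.Adj p.1 p.2)
    have h5 := card_union_le ((L ×ˢ L) ∪ (Hb ×ˢ ni G)) (ni G ×ˢ Hb)
    have h6 := card_union_le (L ×ˢ L) (Hb ×ˢ ni G)
    rw [hflip] at h2
    rw [pairs_eq] at h2 h3 h4
    rw [card_product] at h5 h6
    rw [card_product] at h6
    rw [mul_comm (ni G).card] at h5
    linarith

end Pool.Agent.Q263.InvT
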