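import Pool.Agent.Q263.InvT.Gain

/-!
# Disjoint sets of `2 t` vertices with many edges: the greedy step
-/

set_option autoImplicit false
set_option linter.unusedSectionVars false
open Finset
open scoped Classical

namespace Pool.Agent.Q263.InvT

theorem map_flat {α : Type*} (g : α → ℝ) (φ : α → ℕ) (L : List α) :
    ((L.flatMap fun m => List.replicate (φ m) m).map g).sum = (L.map fun m => φ m * g m).sum := by
  induction L with
  | nil => simp
  | cons a L ih => simp [List.flatMap_cons, ih]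

theorem map_flat' {α : Type*} (g : α → ℕ) (φ : α → ℕ) (L : List α) :
    ((L.flatMap fun m => List.replicate (φ m) m).map g).sum = (L.map fun m => φ m * g m).sum := by
  induction L with
  | nil => simp
  | cons a L ih => simp [List.flatMap_cons, ih]

theorem gn_bounds {q t : ℕ} {H : SimpleGraph (Fin q)} {m : Fin q → Fin 3} (h : IsB H t m) :
    0 ≤ gn t m ∧ gn t m ≤ t := by
  have h1 : ∀ i, ((m i).val : ℝ) ≤ 2 * min ((m i).val : ℝ) 1 := by
    intro i
    have : ∀ k : Fin 3, (k.val : ℝ) ≤ 2 * min (k.val : ℝ) 1 := by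
      intro k
      fin_cases k <;> norm_num
    exact this _
  have h2 : ∑ i, ((m i).val : ℝ) = 2 * t := by exact_mod_cast h.1
  have h3 : ∑ i, ((m i).val : ℝ) ≤ 2 * ∑ i, min ((m i).val : ℝ) 1 := by
    rw [mul_sum]; exact sum_le_sum fun i _ => h1 i
  have h4 : ∑ i, min ((m i).val : ℝ) 1 ≤ ∑ i, ((m i).val : ℝ) :=
    sum_le_sum fun i _ => min_le_left _ _
  unfold gn
  constructor <;> linarith

/-- Integral packings in blow-ups. -/
theorem int_pack {q s t : ℕ} (hq : 1 ≤ q) (ht : 1 ≤ t) (H : SimpleGraph (Fin q)) :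
    ∃ l : List (Fin q → Fin 3), (∀ m ∈ l, IsB H t m) ∧ (∀ i, use l i ≤ s) ∧
      s * ((t * ((univ : Finset (Fin q × Fin q)).filter fun p => H.Adj p.1 p.2).card -
        (t - 1) * (q : ℝ) ^ 2) / (2 * q)) - 3 ^ q * t ≤ (l.map fun m => gn t m).sum := by
  have : Nonempty (Fin q) := ⟨⟨0, by omega⟩⟩
  obtain ⟨lam, h1, h2, h3', h4'⟩ := frac_one (G := H) (t := t) ht
  have h3 : ∀ x, ∑ m : Fin q → Fin 3, lam m * ((m x).val : ℝ) ≤ 1 := by
    intro x
    refine le_trans (le_of_eq (sum_congr ?_ fun _ _ => rfl)) (h3' x)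
    ext m; simp
  have h4 : ((Fintype.card (Fin q) : ℝ) ^ 2 -
      t * ((univ : Finset (Fin q × Fin q)).filter fun p => ¬ H.Adj p.1 p.2).card) /
        (2 * Fintype.card (Fin q)) ≤ ∑ m : Fin q → Fin 3, lam m * gn t m := by
    refine le_trans h4' (le_of_eq (sum_congr ?_ fun _ _ => rfl))
    ext m; simp
  let φ : (Fin q → Fin 3) → ℕ := fun m => ⌊(s : ℝ) * lam m⌋₊
  have hφ : ∀ m, (φ m : ℝ) ≤ s * lam m := fun m =>
    Nat.floor_le (mul_nonneg (by positivity) (h1 m))
  have hφ' : ∀ m, (s : ℝ) * lam m - 1 ≤ φ m := fun m => by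
    have := Nat.lt_floor_add_one ((s : ℝ) * lam m)
    show (s : ℝ) * lam m - 1 ≤ (⌊(s : ℝ) * lam m⌋₊ : ℝ)
    linarith
  have hB : ∀ m, φ m ≠ 0 → IsB H t m := by
    intro m hm
    apply h2
    intro h0
    apply hm
    simp [φ, h0]
  refine ⟨(univ : Finset (Fin q → Fin 3)).toList.flatMap fun m => List.replicate (φ m) m,
    ?_, ?_, ?_⟩
  · intro m hm
    rw [List.mem_flatMap] at hm
    obtain ⟨m', -, hm'⟩ := hm
    rw [List.mem_replicate] at hm'
    rw [hm'.2]
    exact hB m' hm'.1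
  · intro i
    unfold use
    rw [map_flat', Finset.sum_map_toList]
    have h5 : ((∑ m, φ m * (m i).val : ℕ) : ℝ) ≤ s := by
      push_cast
      calc ∑ m : Fin q → Fin 3, (φ m : ℝ) * ((m i).val : ℝ)
          ≤ ∑ m : Fin q → Fin 3, s * (lam m * ((m i).val : ℝ)) := by
            apply sum_le_sum
            intro m _
            rw [← mul_assoc]
            exact mul_le_mul_of_nonneg_right (hφ m) (by positivity)
        _ = s * ∑ m : Fin q → Fin 3, (lam m * ((m i).val : ℝ)) := by rw [mul_sum]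
        _ ≤ s * 1 := mul_le_mul_of_nonneg_left (h3 i) (by positivity)
        _ = s := mul_one _
    exact_mod_cast h5
  · rw [map_flat, Finset.sum_map_toList]
    have h5 : ∀ m : Fin q → Fin 3, s * (lam m * gn t m) - t ≤ φ m * gn t m := by
      intro m
      by_cases hm : lam m = 0
      · have : φ m = 0 := by simp [φ, hm]
        rw [this, hm]
        simp
      · obtain ⟨g0, g1⟩ := gn_bounds (h2 m hm)
        nlinarith [mul_le_mul_of_nonneg_right (hφ' m) g0]
    have h6 := sum_le_sum fun m (_ : m ∈ (univ : Finset (Fin q → Fin 3))) => h5 m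
    rw [sum_sub_distrib, ← mul_sum, sum_const, card_univ, Fintype.card_fun, Fintype.card_fin,
      Fintype.card_fin] at h6
    refine le_trans ?_ h6
    have h7 := mul_le_mul_of_nonneg_left h4 (by positivity : (0 : ℝ) ≤ s)
    have hc : (((univ : Finset (Fin q × Fin q)).filter fun p => ¬ H.Adj p.1 p.2).card : ℝ) =
        (q : ℝ) ^ 2 - ((univ : Finset (Fin q × Fin q)).filter fun p => H.Adj p.1 p.2).card := by
      have := card_filter_add_card_filter_not (s := (univ : Finset (Fin q × Fin q)))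
        (fun p => H.Adj p.1 p.2)
      rw [card_univ, Fintype.card_prod, Fintype.card_fin] at this
      have h8 : (((univ : Finset (Fin q × Fin q)).filter fun p => H.Adj p.1 p.2).card : ℝ) +
        ((univ : Finset (Fin q × Fin q)).filter fun p => ¬ H.Adj p.1 p.2).card = (q : ℝ) * q := by
        exact_mod_cast this
      rw [sq]; linarith
    rw [hc, Fintype.card_fin] at h7
    have e : ((q : ℝ) ^ 2 - t * ((q : ℝ) ^ 2 -
        ((univ : Finset (Fin q × Fin q)).filter fun p => H.Adj p.1 p.2).card)) =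
        (t * ((univ : Finset (Fin q × Fin q)).filter fun p => H.Adj p.1 p.2).card -
        (t - 1) * (q : ℝ) ^ 2) := by ring
    rw [e] at h7
    rw [nsmul_eq_mul]
    push_cast
    linarith

variable {V : Type} [Fintype V] {G : SimpleGraph V}

/-- The number of adjacent pairs of a tuple. -/
noncomputable def ap (G : SimpleGraph V) {q : ℕ} (x : Fin q → V) : ℝ :=
  ∑ i, ∑ j, if G.Adj (x i) (x j) then 1 else 0

/-- The quality of a tuple. -/
noncomputable def ZZ (G : SimpleGraph V) (R : Finset V) {q : ℕ} (x : Fin q → V) : ℝ :=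
  ap G x / (2 * q) - (∑ i, (dg G R (x i) : ℝ)) / R.card + q * E2 G R / (2 * (R.card : ℝ) ^ 2)

theorem ap_le {q : ℕ} (x : Fin q → V) : ap G x ≤ (q : ℝ) ^ 2 := by
  unfold ap
  calc ∑ i : Fin q, ∑ j : Fin q, (if G.Adj (x i) (x j) then (1 : ℝ) else 0)
      ≤ ∑ i : Fin q, ∑ j : Fin q, (1 : ℝ) := by
        apply sum_le_sum; intro i _; apply sum_le_sum; intro j _; split_ifs <;> norm_num
    _ = (q : ℝ) ^ 2 := by simp [sq]

theorem sum_ap (R : Finset V) (q : ℕ) :
    ∑ x ∈ Fintype.piFinset (fun _ : Fin q => R), ap G x =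
      q * (q - 1) * (E2 G R * (R.card : ℝ) ^ (q - 2)) := by
  unfold ap
  rw [sum_comm]
  have h1 : ∀ i : Fin q, ∑ x ∈ Fintype.piFinset (fun _ : Fin q => R),
      ∑ j, (if G.Adj (x i) (x j) then (1 : ℝ) else 0) =
        ((q : ℝ) - 1) * (E2 G R * (R.card : ℝ) ^ (q - 2)) := by
    intro i
    rw [sum_comm]
    have h2 : ∀ j : Fin q, ∑ x ∈ Fintype.piFinset (fun _ : Fin q => R),
        (if G.Adj (x i) (x j) then (1 : ℝ) else 0) =
          (E2 G R * (R.card : ℝ) ^ (q - 2)) -
            if i = j then (E2 G R * (R.card : ℝ) ^ (q - 2)) else 0 := by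
      intro j
      by_cases hij : i = j
      · subst hij; simp
      · rw [sum_adj R hij]; simp [hij]
    rw [sum_congr rfl fun j _ => h2 j, sum_sub_distrib]
    simp
    ring
  rw [sum_congr rfl fun i _ => h1 i]
  simp
  ring

/-- Many tuples have good quality. -/
theorem good_tuples {q : ℕ} (hq : 2 ≤ q) {ε : ℝ} (hε1 : ε ≤ 1) (hεq : 1 ≤ ε * q)
    (R : Finset V) (hR : 1 ≤ R.card) :
    ε / 4 * (R.card : ℝ) ^ q ≤
      ((Fintype.piFinset fun _ : Fin q => R).filter fun x => -(ε * q) ≤ ZZ G R x).card := by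
  set P := Fintype.piFinset fun _ : Fin q => R with hP
  have hPc : (P.card : ℝ) = (R.card : ℝ) ^ q := by
    rw [hP, Fintype.card_piFinset]; simp
  have hr : (0 : ℝ) < R.card := by exact_mod_cast hR
  have hE : (E2 G R : ℝ) ≤ (R.card : ℝ) ^ 2 := by exact_mod_cast E2_le R
  have hE0 : (0 : ℝ) ≤ E2 G R := by positivity
  have hqr : (2 : ℝ) ≤ q := by exact_mod_cast hq
  have hqp : (0 : ℝ) < q := by linarith
  set r : ℝ := (R.card : ℝ) with hrdef
  set E : ℝ := (E2 G R : ℝ) with hEdef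
  set A := r ^ (q - 2) with hA
  have hA0 : 0 < A := by positivity
  have e1 : r ^ (q - 1) = A * r := by rw [hA, ← pow_succ]; congr 1; omega
  have e2 : r ^ q = A * r ^ 2 := by rw [hA, ← pow_add]; congr 1; omega
  have hsum : ∑ x ∈ P, ZZ G R x = -(E * A / 2) := by
    unfold ZZ
    rw [sum_add_distrib, sum_sub_distrib, ← sum_div, ← sum_div, sum_comm, hP, sum_ap,
      sum_congr rfl fun i _ => sum_deg (G := G) R i, sum_const, sum_const, ← hP, nsmul_eq_mul,
      nsmul_eq_mul, hPc, card_univ, Fintype.card_fin, e1, e2]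
    field_simp
    ring
  have hZ : ∀ x ∈ P, ZZ G R x ≤ q := by
    intro x _
    unfold ZZ
    have h1 : ap G x / (2 * q) ≤ q / 2 := by
      rw [div_le_iff₀ (by positivity)]
      have := ap_le (G := G) x
      nlinarith
    have h2 : (0 : ℝ) ≤ (∑ i, (dg G R (x i) : ℝ)) / r := by positivity
    have h3 : q * E / (2 * r ^ 2) ≤ q / 2 := by
      rw [div_le_iff₀ (by positivity)]
      nlinarith
    linarith
  set g := (P.filter fun x => -(ε * q) ≤ ZZ G R x).card with hg
  have hsplit : (P.filter fun x => -(ε * q) ≤ ZZ G R x).card +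
      (P.filter fun x => ¬ -(ε * q) ≤ ZZ G R x).card = P.card :=
    card_filter_add_card_filter_not _
  have hup : ∑ x ∈ P, ZZ G R x ≤ g * q + (r ^ q - g) * (-(ε * q)) := by
    rw [← sum_filter_add_sum_filter_not P (fun x => -(ε * q) ≤ ZZ G R x)]
    have h1 : ∑ x ∈ P.filter (fun x => -(ε * q) ≤ ZZ G R x), ZZ G R x ≤ g * q := by
      rw [← nsmul_eq_mul]
      apply sum_le_card_nsmul
      intro x hx
      exact hZ x (mem_filter.mp hx).1
    have h2 : ∑ x ∈ P.filter (fun x => ¬ -(ε * q) ≤ ZZ G R x), ZZ G R x ≤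
        (r ^ q - g) * (-(ε * q)) := by
      have h3 : ((P.filter fun x => ¬ -(ε * q) ≤ ZZ G R x).card : ℝ) = r ^ q - g := by
        rw [← hPc, ← hsplit]; push_cast; ring
      rw [← h3, ← nsmul_eq_mul]
      apply sum_le_card_nsmul
      intro x hx
      have := (mem_filter.mp hx).2
      push Not at this
      exact this.le
    exact add_le_add h1 h2
  rw [hsum] at hup
  have h4 : E * A / 2 ≤ r ^ q / 2 := by
    rw [e2]
    nlinarith
  have hrq : 0 < r ^ q := by positivity
  have hg0 : (0 : ℝ) ≤ g := by positivity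
  -- g q (1 + ε) ≥ r ^ q (ε q - 1/2)
  have h5 : r ^ q * (ε * q / 2) ≤ g * q * (1 + ε) := by nlinarith
  have h6 : r ^ q * (ε / 2) ≤ g * (1 + ε) := by
    have : (r ^ q * (ε / 2)) * q ≤ (g * (1 + ε)) * q := by linarith
    exact le_of_mul_le_mul_right this hqp
  have h7 : (g : ℝ) * (1 + ε) ≤ g * 2 := by
    apply mul_le_mul_of_nonneg_left _ hg0
    linarith
  linarith

/-- The potential. -/
noncomputable def Psi (G : SimpleGraph V) (t : ℕ) (e : ℝ) (R : Finset V) : ℝ :=
  t * E2 G R / (2 * R.card) - (t - 1) * R.card / 2 - e * R.card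

theorem num {t w s q h2 E D E' r ε e : ℝ} (ht : 1 ≤ t) (hw : w = q * s) (hq : 0 < q) (hs : 0 < s)
    (hh0 : 0 ≤ h2) (hh : h2 ≤ q ^ 2) (hE0 : 0 ≤ E) (hE : E ≤ r ^ 2) (hε : 0 < ε) (hε1 : ε ≤ 1)
    (he : t * ε ≤ e / 4) (hr : w < r) (hr' : 8 * t * w ≤ e * r)
    (hD : D ≤ r * (s * h2 / (2 * q) + w * E / (2 * r ^ 2) + ε * w)) (hE' : E - 2 * D ≤ E')
    (hE'0 : 0 ≤ E') :
    (t * E / (2 * r) - (t - 1) * r / 2 - e * r) -
      (t * E' / (2 * (r - w)) - (t - 1) * (r - w) / 2 - e * (r - w)) ≤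
      s * ((t * h2 - (t - 1) * q ^ 2) / (2 * q)) - e * w / 4 := by
  have hw0 : 0 < w := by rw [hw]; positivity
  have hr0 : 0 < r := by linarith
  obtain ⟨a, ha⟩ : ∃ a, a = s * h2 / q := ⟨_, rfl⟩
  have ha0 : 0 ≤ a := by rw [ha]; positivity
  have haw : a ≤ w := by
    rw [ha, hw, div_le_iff₀ hq]
    nlinarith
  have e1 : s * ((t * h2 - (t - 1) * q ^ 2) / (2 * q)) = t * a / 2 - (t - 1) * w / 2 := by
    rw [ha, hw]; field_simp
  obtain ⟨c, hc⟩ : ∃ c, c = E / r ^ 2 := ⟨_, rfl⟩
  have hEc : E = c * r ^ 2 := by rw [hc]; field_simp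
  have hc0 : 0 ≤ c := by rw [hc]; positivity
  have hc1 : c ≤ 1 := by
    rw [hc, div_le_iff₀ (by positivity)]; linarith
  have hD' : 2 * D ≤ r * (a + w * c + 2 * (ε * w)) := by
    have : r * (s * h2 / (2 * q) + w * E / (2 * r ^ 2) + ε * w) =
        r * (a + w * c + 2 * (ε * w)) / 2 := by
      rw [ha, hc]; field_simp
    rw [this] at hD
    linarith
  -- the lower bound for the new density
  have hrw : 0 < r - w := by linarith
  have h1 : (E - 2 * D) * (r + w) / r ^ 2 ≤ E' / (r - w) := by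
    rcases le_or_gt (E - 2 * D) 0 with hneg | hpos
    · calc (E - 2 * D) * (r + w) / r ^ 2 ≤ 0 := by
            apply div_nonpos_of_nonpos_of_nonneg _ (by positivity)
            exact mul_nonpos_of_nonpos_of_nonneg hneg (by linarith)
        _ ≤ E' / (r - w) := by positivity
    · rw [div_le_div_iff₀ (by positivity) hrw]
      calc (E - 2 * D) * (r + w) * (r - w) = (E - 2 * D) * (r ^ 2 - w ^ 2) := by ring
        _ ≤ (E - 2 * D) * r ^ 2 := by
            apply mul_le_mul_of_nonneg_left _ hpos.le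
            nlinarith
        _ ≤ E' * r ^ 2 := mul_le_mul_of_nonneg_right hE' (by positivity)
  have h2' : c * r - a - 2 * (ε * w) - 4 * w ^ 2 / r ≤ (E - 2 * D) * (r + w) / r ^ 2 := by
    have h3 : (c * r ^ 2 - r * (a + w * c + 2 * (ε * w))) * (r + w) / r ^ 2 ≤
        (E - 2 * D) * (r + w) / r ^ 2 := by
      apply div_le_div_of_nonneg_right _ (by positivity)
      apply mul_le_mul_of_nonneg_right _ (by linarith)
      rw [hEc]; linarith
    refine le_trans ?_ h3
    have h4 : (c * r ^ 2 - r * (a + w * c + 2 * (ε * w))) * (r + w) / r ^ 2 =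
        c * r - a - 2 * (ε * w) - (a + w * c + 2 * (ε * w)) * w / r := by
      field_simp
      ring
    rw [h4]
    have h5 : (a + w * c + 2 * (ε * w)) * w / r ≤ 4 * w ^ 2 / r := by
      apply div_le_div_of_nonneg_right _ hr0.le
      have : a + w * c + 2 * (ε * w) ≤ 4 * w := by nlinarith
      nlinarith
    linarith
  have h3 : c * r - a - 2 * (ε * w) - 4 * w ^ 2 / r ≤ E' / (r - w) := h2'.trans h1
  have e2 : t * E / (2 * r) = t / 2 * (c * r) := by rw [hEc]; field_simp
  have e3 : t * E' / (2 * (r - w)) = t / 2 * (E' / (r - w)) := by field_simp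
  have h4 : t / 2 * (c * r - a - 2 * (ε * w) - 4 * w ^ 2 / r) ≤ t / 2 * (E' / (r - w)) :=
    mul_le_mul_of_nonneg_left h3 (by linarith)
  have h5 : t / 2 * (4 * w ^ 2 / r) ≤ e * w / 4 := by
    have : t / 2 * (4 * w ^ 2 / r) = 2 * t * w ^ 2 / r := by ring
    rw [this, div_le_iff₀ hr0]
    nlinarith
  have h6 : t * (ε * w) ≤ e * w / 4 := by nlinarith
  rw [e1, e2, e3]
  nlinarith

theorem E2_sdiff {R X : Finset V} :
    E2 G R ≤ E2 G (R \ X) + 2 * ∑ v ∈ X, dg G R v := by
  have h1 : ((X ×ˢ R).filter fun p => G.Adj p.1 p.2).card = ∑ v ∈ X, dg G R v := by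
    unfold dg
    rw [card_filter, sum_product]
    apply sum_congr rfl
    intro v _
    rw [← card_filter]
  have h2 : ((R ×ˢ X).filter fun p => G.Adj p.1 p.2).card = ∑ v ∈ X, dg G R v := by
    rw [← h1]
    apply card_bij (fun p _ => p.swap)
    · rintro ⟨x, y⟩ hp
      simp only [mem_filter, mem_product, Prod.swap] at hp ⊢
      exact ⟨hp.1.symm, hp.2.symm⟩
    · rintro ⟨x, y⟩ _ ⟨x', y'⟩ _ h
      simp only [Prod.swap, Prod.mk.injEq] at h
      exact Prod.ext h.2 h.1
    · rintro ⟨x, y⟩ hp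
      simp only [mem_filter, mem_product] at hp
      refine ⟨(y, x), ?_, rfl⟩
      simp only [mem_filter, mem_product]
      exact ⟨hp.1.symm, hp.2.symm⟩
  have h3 : ((R ×ˢ R).filter fun p => G.Adj p.1 p.2) ⊆
      (((R \ X) ×ˢ (R \ X)).filter fun p => G.Adj p.1 p.2) ∪
        ((X ×ˢ R).filter fun p => G.Adj p.1 p.2) ∪ ((R ×ˢ X).filter fun p => G.Adj p.1 p.2) := by
    rintro ⟨x, y⟩ hp
    simp only [mem_union, mem_filter, mem_product, mem_sdiff] at hp ⊢
    tauto
  unfold E2
  have h4 := card_le_card h3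
  have h5 := card_union_le ((((R \ X) ×ˢ (R \ X)).filter fun p => G.Adj p.1 p.2) ∪
        ((X ×ˢ R).filter fun p => G.Adj p.1 p.2)) ((R ×ˢ X).filter fun p => G.Adj p.1 p.2)
  have h6 := card_union_le (((R \ X) ×ˢ (R \ X)).filter fun p => G.Adj p.1 p.2)
        ((X ×ˢ R).filter fun p => G.Adj p.1 p.2)
  omega

/-- The greedy step. -/
theorem step {t : ℕ} (ht : 1 ≤ t) {e : ℝ} (he : 0 < e) : ∃ r0 w : ℕ, 1 ≤ w ∧
    ∀ (V : Type) [Fintype V] (G : SimpleGraph V) (R : Finset V), r0 ≤ R.card →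
    ∃ X : Finset V, X ⊆ R ∧ X.card = w ∧ ∃ 𝓑 : Finset (Finset V), (∀ B ∈ 𝓑, B.card = 2 * t) ∧
      (∀ B ∈ 𝓑, B ⊆ X) ∧ (∀ B ∈ 𝓑, ∀ B' ∈ 𝓑, B ≠ B' → Disjoint B B') ∧
      Psi G t e R - Psi G t e (R \ X) ≤ ∑ B ∈ 𝓑, gv G t B := by
  -- constants
  have htr : (1 : ℝ) ≤ t := by exact_mod_cast ht
  have htp : (0 : ℝ) < t := by linarith
  obtain ⟨ε, hεdef⟩ : ∃ ε : ℝ, ε = min 1 (e / (4 * t)) := ⟨_, rfl⟩
  have hε : 0 < ε := by rw [hεdef]; exact lt_min one_pos (by positivity)
  have hε1 : ε ≤ 1 := by rw [hεdef]; exact min_le_left _ _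
  have htε : t * ε ≤ e / 4 := by
    have : ε ≤ e / (4 * t) := by rw [hεdef]; exact min_le_right _ _
    rw [le_div_iff₀ (by positivity)] at this
    linarith
  obtain ⟨q, hq⟩ := exists_nat_gt (2 / ε)
  rw [div_lt_iff₀ hε] at hq
  have hqpos : (0 : ℝ) < q := by
    by_contra h
    push Not at h
    nlinarith
  have hq2r : (2 : ℝ) < q := by nlinarith
  have hq2 : 2 ≤ q := by
    have : (2 : ℕ) < q := by exact_mod_cast hq2r
    omega
  have hεq : 1 ≤ ε * q := by linarith
  obtain ⟨s, hs⟩ := exists_nat_gt (4 * (3 ^ q * t) / e)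
  have hs0 : (0 : ℝ) < s := lt_trans (by positivity) hs
  have hs1 : 1 ≤ s := by exact_mod_cast hs0
  rw [div_lt_iff₀ he] at hs
  obtain ⟨w, hw⟩ : ∃ w, w = q * s := ⟨_, rfl⟩
  have hwr : (w : ℝ) = q * s := by rw [hw]; push_cast; ring
  have hw1 : 1 ≤ w := by rw [hw]; exact Nat.mul_pos (by omega) (by omega)
  obtain ⟨M, hM⟩ : ∃ M, M = Fintype.card (SimpleGraph (Fin q)) := ⟨_, rfl⟩
  have hM0 : 0 < M := by rw [hM]; exact Fintype.card_pos
  have hM0r : (0 : ℝ) < M := by exact_mod_cast hM0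
  obtain ⟨r1, hr1⟩ := box w hw1 q (ε / (4 * M)) (by positivity)
  obtain ⟨r2, hr2⟩ := exists_nat_gt (8 * t * w / e)
  refine ⟨max (max r1 r2) (w + 1), w, hw1, fun V _ G R hR => ?_⟩
  have hR1 : r1 ≤ R.card := le_trans (le_trans (le_max_left _ _) (le_max_left _ _)) hR
  have hR2 : r2 ≤ R.card := le_trans (le_trans (le_max_right _ _) (le_max_left _ _)) hR
  have hR3 : w + 1 ≤ R.card := le_trans (le_max_right _ _) hR
  have hRw : (w : ℝ) < R.card := by exact_mod_cast hR3
  have hRe : 8 * t * w ≤ e * R.card := by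
    have h1 : 8 * (t : ℝ) * w / e < R.card := lt_of_lt_of_le hr2 (by exact_mod_cast hR2)
    rw [div_lt_iff₀ he] at h1
    linarith
  have hr : (0 : ℝ) < R.card := by
    have : (0 : ℝ) ≤ w := by positivity
    linarith
  -- pigeonhole
  set P := (Fintype.piFinset fun _ : Fin q => R).filter fun x => -(ε * q) ≤ ZZ G R x with hP
  have hPc : ε / 4 * (R.card : ℝ) ^ q ≤ P.card := good_tuples hq2 hε1 hεq R (by omega)
  obtain ⟨H, -, hH⟩ := Finset.exists_le_card_fiber_of_nsmul_le_card_of_maps_to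
    (s := P) (t := (univ : Finset (SimpleGraph (Fin q)))) (f := fun x => G.comap x)
    (b := ε / (4 * M) * (R.card : ℝ) ^ q) (fun _ _ => mem_univ _) univ_nonempty (by
      rw [card_univ, ← hM, nsmul_eq_mul]
      refine le_trans (le_of_eq ?_) hPc
      field_simp)
  set T := P.filter fun x => G.comap x = H with hT
  have hTP : ∀ x ∈ T, x ∈ P := fun x hx => (mem_filter.mp hx).1
  have hTH : ∀ x ∈ T, G.comap x = H := fun x hx => (mem_filter.mp hx).2
  have hTR : ∀ x ∈ T, ∀ i, x i ∈ R := by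
    intro x hx i
    have := (mem_filter.mp (hTP x hx)).1
    exact Fintype.mem_piFinset.mp this i
  obtain ⟨X, hX1, hX2⟩ := hr1 V R hR1 T hTR hH
  obtain ⟨f, hf, hfX⟩ := disj (s := s) X (fun i => by rw [hX1 i, hw])
  have hcol : ∀ a : Fin s, (fun i => f (i, a)) ∈ T := fun a => hX2 _ fun i => hfX (i, a)
  have hadj : ∀ i j a b, H.Adj i j → G.Adj (f (i, a)) (f (j, b)) := by
    intro i j a b hij
    have hne : i ≠ j := hij.ne
    have hx : (fun k => if k = i then f (i, a) else if k = j then f (j, b) else f (k, a)) ∈ T := by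
      apply hX2
      intro k
      by_cases hk : k = i
      · subst hk; simp only [if_true]; exact hfX (k, a)
      · by_cases hk' : k = j
        · subst hk'; simp only [hk, if_false, if_true]; exact hfX (k, b)
        · simp only [hk, hk', if_false]; exact hfX (k, a)
    have h1 := hTH _ hx
    rw [← h1, SimpleGraph.comap_adj] at hij
    simpa [hne.symm] using hij
  obtain ⟨h2, hh2⟩ : ∃ h2 : ℕ, h2 =
    ((univ : Finset (Fin q × Fin q)).filter fun p => H.Adj p.1 p.2).card := ⟨_, rfl⟩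
  have hh2q : (h2 : ℝ) ≤ (q : ℝ) ^ 2 := by
    have : h2 ≤ q * q := by
      rw [hh2]
      refine (card_filter_le _ _).trans ?_
      rw [card_univ, Fintype.card_prod, Fintype.card_fin]
    rw [sq]; exact_mod_cast this
  have hap : ∀ x ∈ T, ap G x = h2 := by
    intro x hx
    unfold ap
    rw [hh2, card_filter, ← univ_product_univ, sum_product]
    push_cast
    apply sum_congr rfl
    intro i _
    apply sum_congr rfl
    intro j _
    rw [← hTH x hx, SimpleGraph.comap_adj]
  -- the removed set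
  obtain ⟨X0, hX0⟩ : ∃ X0 : Finset V, X0 = univ.image f := ⟨_, rfl⟩
  have hX0R : X0 ⊆ R := by
    intro z hz
    rw [hX0, mem_image] at hz
    obtain ⟨⟨i, a⟩, -, rfl⟩ := hz
    exact hTR _ (hcol a) i
  have hX0c : X0.card = w := by
    rw [hX0, card_image_of_injective _ hf, card_univ, Fintype.card_prod, Fintype.card_fin,
      Fintype.card_fin, hw]
  obtain ⟨D, hD⟩ : ∃ D : ℕ, D = ∑ v ∈ X0, dg G R v := ⟨_, rfl⟩
  have hDsum : (D : ℝ) = ∑ a : Fin s, ∑ i : Fin q, (dg G R (f (i, a)) : ℝ) := by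
    rw [hD, hX0, sum_image (fun x _ y _ h => hf h), ← univ_product_univ, sum_product_right]
    push_cast
    rfl
  have hDle : (D : ℝ) ≤ R.card * (s * h2 / (2 * q) + w * E2 G R / (2 * (R.card : ℝ) ^ 2) + ε * w) := by
    have h1 : ∀ a : Fin s, -(ε * q) ≤ (h2 : ℝ) / (2 * q) -
        (∑ i : Fin q, (dg G R (f (i, a)) : ℝ)) / R.card + q * E2 G R / (2 * (R.card : ℝ) ^ 2) := by
      intro a
      have h3 := (mem_filter.mp (hTP _ (hcol a))).2
      unfold ZZ at h3
      rw [hap _ (hcol a)] at h3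
      exact h3
    have h3 := sum_le_sum fun a (_ : a ∈ (univ : Finset (Fin s))) => h1 a
    have e0 : ∑ a : Fin s, (∑ i : Fin q, (dg G R (f (i, a)) : ℝ)) / R.card = (D : ℝ) / R.card := by
      rw [← sum_div, ← hDsum]
    rw [sum_add_distrib, sum_sub_distrib, e0, sum_const, sum_const, sum_const,
      card_univ, Fintype.card_fin, nsmul_eq_mul, nsmul_eq_mul, nsmul_eq_mul] at h3
    have h4 : (D : ℝ) / R.card ≤ s * h2 / (2 * q) + w * E2 G R / (2 * (R.card : ℝ) ^ 2) + ε * w := by
      rw [hwr]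
      have e1 : (s : ℝ) * (h2 / (2 * q)) = s * h2 / (2 * q) := by ring
      have e2 : (s : ℝ) * (q * E2 G R / (2 * (R.card : ℝ) ^ 2)) =
          q * s * E2 G R / (2 * (R.card : ℝ) ^ 2) := by ring
      have e3 : (s : ℝ) * -(ε * q) = -(ε * (q * s)) := by ring
      rw [e1, e2, e3] at h3
      linarith
    rw [div_le_iff₀ hr] at h4
    linarith
  -- the blocks
  obtain ⟨l, hl1, hl2, hl3⟩ := int_pack (q := q) (s := s) (by omega) ht H
  obtain ⟨𝓑, hB1, hB2, hB3, hB4⟩ := seq hf hadj ht l hl1 hl2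
  refine ⟨X0, hX0R, hX0c, 𝓑, hB1, ?_, hB3, ?_⟩
  · intro B hB
    refine (hB2 B hB).trans ?_
    rw [hX0]
    exact image_subset_image (filter_subset _ _)
  · refine le_trans ?_ (hl3.trans hB4)
    have hE := E2_sdiff (G := G) (R := R) (X := X0)
    rw [← hD] at hE
    have hE' : (E2 G R : ℝ) - 2 * D ≤ E2 G (R \ X0) := by
      have : (E2 G R : ℝ) ≤ E2 G (R \ X0) + 2 * D := by exact_mod_cast hE
      linarith
    have hcard : ((R \ X0).card : ℝ) = R.card - w := by
      have := card_sdiff_add_card_eq_card hX0R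
      rw [hX0c] at this
      have h5 : ((R \ X0).card : ℝ) + w = R.card := by exact_mod_cast this
      linarith
    have hER : (E2 G R : ℝ) ≤ (R.card : ℝ) ^ 2 := by exact_mod_cast E2_le R
    have h1 := num (t := (t : ℝ)) (w := w) (s := s) (q := q) (h2 := h2) (E := E2 G R) (D := D)
      (E' := E2 G (R \ X0)) (r := R.card) (ε := ε) (e := e) htr hwr hqpos hs0 (by positivity)
      hh2q (by positivity) hER hε hε1 htε hRw hRe hDle hE' (by positivity)
    unfold Psi
    rw [hcard, ← hh2]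
    refine h1.trans ?_
    have h2' : 3 ^ q * (t : ℝ) ≤ e * w / 4 := by
      rw [hwr]
      have : e * s ≤ e * (q * s) := by
        apply mul_le_mul_of_nonneg_left _ he.le
        nlinarith
      linarith
    linarith

/-- Disjoint sets of `2 t` vertices with a large gain. -/
theorem gain {t : ℕ} (ht : 1 ≤ t) {e : ℝ} (he : 0 < e) : ∃ C : ℝ, 0 ≤ C ∧
    ∀ (V : Type) [Fintype V] (G : SimpleGraph V) (R : Finset V),
    ∃ 𝓑 : Finset (Finset V), (∀ B ∈ 𝓑, B.card = 2 * t) ∧
      (∀ B ∈ 𝓑, B ⊆ R) ∧ (∀ B ∈ 𝓑, ∀ B' ∈ 𝓑, B ≠ B' → Disjoint B B') ∧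
      Psi G t e R - C ≤ ∑ B ∈ 𝓑, gv G t B := by
  obtain ⟨r0, w, hw, hstep⟩ := step ht he
  have htr : (1 : ℝ) ≤ t := by exact_mod_cast ht
  refine ⟨t * r0, by positivity, ?_⟩
  have main : ∀ n : ℕ, ∀ (V : Type) [Fintype V] (G : SimpleGraph V) (R : Finset V), R.card = n →
      ∃ 𝓑 : Finset (Finset V), (∀ B ∈ 𝓑, B.card = 2 * t) ∧
      (∀ B ∈ 𝓑, B ⊆ R) ∧ (∀ B ∈ 𝓑, ∀ B' ∈ 𝓑, B ≠ B' → Disjoint B B') ∧
      Psi G t e R - t * r0 ≤ ∑ B ∈ 𝓑, gv G t B := by
    intro n
    induction n using Nat.strong_induction_on with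
    | _ n ih =>
      intro V _ G R hR
      rcases lt_or_ge R.card r0 with hlt | hge
      · refine ⟨∅, by simp, by simp, by simp, ?_⟩
        rw [sum_empty]
        have h1 : Psi G t e R ≤ t * R.card := by
          unfold Psi
          rcases Nat.eq_zero_or_pos R.card with h0 | h0
          · simp [h0]
          have hr : (0 : ℝ) < R.card := by exact_mod_cast h0
          have hER : (E2 G R : ℝ) ≤ (R.card : ℝ) ^ 2 := by exact_mod_cast E2_le R
          have h2 : t * (E2 G R : ℝ) / (2 * R.card) ≤ t * R.card := by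
            rw [div_le_iff₀ (by positivity)]
            nlinarith [mul_le_mul_of_nonneg_left hER (by linarith : (0 : ℝ) ≤ t)]
          have h3 : 0 ≤ ((t : ℝ) - 1) * R.card / 2 := by
            have : 0 ≤ (t : ℝ) - 1 := by linarith
            positivity
          have h4 : 0 ≤ e * R.card := by positivity
          linarith
        have h2 : (t : ℝ) * R.card ≤ t * r0 := by
          have : (R.card : ℝ) ≤ r0 := by exact_mod_cast hlt.le
          gcongr
        linarith
      · obtain ⟨X, hXR, hXc, 𝓑, hB1, hB2, hB3, hB4⟩ := hstep V G R hge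
        have hc : (R \ X).card < n := by
          have := card_sdiff_add_card_eq_card hXR
          omega
        obtain ⟨𝓑', hB1', hB2', hB3', hB4'⟩ := ih _ hc V G (R \ X) rfl
        have hcross : ∀ B ∈ 𝓑, ∀ B' ∈ 𝓑', Disjoint B B' := by
          intro B hB B' hB'
          rw [disjoint_left]
          intro z hz hz'
          exact (mem_sdiff.mp (hB2' B' hB' hz')).2 (hB2 B hB hz)
        have hdis : Disjoint 𝓑 𝓑' := by
          rw [disjoint_left]
          intro B hB hB'
          have h1 := hcross B hB B hB'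
          rw [disjoint_self] at h1
          have h2 := hB1 B hB
          have h3 : B.card = 0 := by rw [h1]; rfl
          omega
        refine ⟨𝓑 ∪ 𝓑', ?_, ?_, ?_, ?_⟩
        · intro B hB
          rcases mem_union.mp hB with h | h
          · exact hB1 B h
          · exact hB1' B h
        · intro B hB
          rcases mem_union.mp hB with h | h
          · exact (hB2 B h).trans hXR
          · exact (hB2' B h).trans sdiff_subset
        · intro B hB B' hB' hne
          rcases mem_union.mp hB with h | h <;> rcases mem_union.mp hB' with h' | h'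
          · exact hB3 B h B' h' hne
          · exact hcross B h B' h'
          · exact (hcross B' h' B h).symm
          · exact hB3' B h B' h' hne
        · rw [sum_union hdis]
          linarith
  intro V _ G R
  exact main _ V G R rfl

end Pool.Agent.Q263.InvT
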