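import Pool.Agent.Q263.InvT.Core
import Pool.Agent.Q263.InvT.Step

/-!
# Inverse Turán numbers of even paths: the structure of the host graph
-/

set_option autoImplicit false
set_option linter.unusedSectionVars false
open Finset
open scoped Classical

namespace Pool.Agent.Q263.InvT

variable {V : Type*} [Fintype V] {G : SimpleGraph V}

/-- The structure of the host graph, with the blocks. -/
theorem core' {t k s : ℕ} (ht : 1 ≤ t) (hG : Small G t k) :
    ∃ (L : Finset V) (b : V → Finset V) (x y h n : ℕ), Cfg G t L b ∧ t * L.card < k ∧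
      n ≤ 2 * k ∧ s * h ≤ k ∧
      (x - t * n) ^ t ≤ s * n ^ (2 * t - 1) ∧
      (y - t * n) ^ t ≤ (s + t) * n ^ (2 * t - 1) ∧
      2 * G.edgeSet.ncard ≤ E2 G L + 2 * (h * n) + x + 2 * y := by
  -- an optimal configuration
  let F : Finset (Finset V × (V → Finset V)) := univ.filter fun p => Cfg G t p.1 p.2
  have hF : F.Nonempty := by
    refine ⟨(∅, fun _ => ∅), ?_⟩
    simp only [F, mem_filter, mem_univ, true_and]
    exact ⟨by simp, by simp, by simp, by simp⟩
  let Φ : Finset V × (V → Finset V) → ℤ := fun p => (p.1.card : ℤ) - s * ((p.1.image p.2).card : ℤ)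
  obtain ⟨⟨L, b⟩, hp, hmax⟩ := exists_max_image F Φ hF
  have hcfg : Cfg G t L b := (mem_filter.mp hp).2
  have hmax' : ∀ (L' : Finset V) (b' : V → Finset V), Cfg G t L' b' →
      (L'.card : ℤ) - s * ((L'.image b').card : ℤ) ≤ (L.card : ℤ) - s * ((L.image b).card : ℤ) := by
    intro L' b' h
    exact hmax (L', b') (mem_filter.mpr ⟨mem_univ _, h⟩)
  set m := (L.image b).card with hm
  have h0 : s * m ≤ L.card := by
    have := hmax' ∅ (fun _ => ∅) ⟨by simp, by simp, by simp, by simp⟩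
    simp at this
    exact_mod_cast (by linarith : (s : ℤ) * (m : ℤ) ≤ (L.card : ℤ))
  have hLk : t * L.card < k := cfg_lt ht le_rfl hG hcfg
  set Hb := L.biUnion b with hHb
  have hHcard : Hb.card ≤ t * m := by
    have e1 : Hb = (L.image b).biUnion id := by
      rw [hHb, image_biUnion]
      rfl
    rw [e1, hm, mul_comm]
    apply card_biUnion_le_card_mul
    intro S hS
    rw [mem_image] at hS
    obtain ⟨v, hv, rfl⟩ := hS
    exact (hcfg.card v hv).le
  set U := ni G \ (L ∪ Hb) with hU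
  have hUL : ∀ z ∈ U, z ∉ L := fun z hz hzL => (mem_sdiff.mp hz).2 (mem_union_left _ hzL)
  have hUH : ∀ z ∈ U, ∀ v ∈ L, z ∉ b v := fun z hz v hv hzb =>
    (mem_sdiff.mp hz).2 (mem_union_right _ (mem_biUnion.mpr ⟨v, hv, hzb⟩))
  have hLn : L ⊆ ni G := by
    intro v hv
    have hne : (b v).Nonempty := by
      rw [← card_pos, hcfg.card v hv]; omega
    obtain ⟨z, hz⟩ := hne
    exact mem_ni.mpr ⟨z, hcfg.adj v hv z hz⟩
  have hUn : U ⊆ ni G := sdiff_subset
  set n := (ni G).card with hn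
  have hUc : U.card ≤ n := card_le_card hUn
  have hLc : L.card ≤ n := card_le_card hLn
  -- common neighbours of hubs in `U`
  have hTU : ∀ T : Finset V, T ⊆ U → T.card = t →
      (U.filter fun y => ∀ x ∈ T, G.Adj x y).card ≤ s := by
    intro T hT hTc
    set S := U.filter fun y => ∀ x ∈ T, G.Adj x y with hS
    have hSU : S ⊆ U := filter_subset _ _
    have hSadj : ∀ y ∈ S, ∀ x ∈ T, G.Adj x y := fun y hy => (mem_filter.mp hy).2
    have hST : ∀ y ∈ S, y ∉ T := fun y hy hyT => G.loopless.irrefl _ (hSadj y hy y hyT)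
    have hdis : Disjoint L S := disjoint_left.mpr fun z hz hzS => hUL z (hSU hzS) hz
    let b' : V → Finset V := fun v => if v ∈ L then b v else T
    have hb1 : ∀ v ∈ L, b' v = b v := fun v hv => by simp [b', hv]
    have hb2 : ∀ v ∈ S, b' v = T := fun v hv => by
      have : v ∉ L := hUL v (hSU hv)
      simp [b', this]
    have hTb : ∀ v ∈ L, Disjoint (b v) T := fun v hv =>
      disjoint_left.mpr fun z hz hzT => hUH z (hT hzT) v hv hz
    have hc : Cfg G t (L ∪ S) b' := by
      refine ⟨?_, ?_, ?_, ?_⟩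
      · intro v hv z hz
        rcases mem_union.mp hv with hv | hv
        · rw [hb1 v hv] at hz; exact hcfg.adj v hv z hz
        · rw [hb2 v hv] at hz; exact (hSadj v hv z hz).symm
      · intro v hv
        rcases mem_union.mp hv with hv | hv
        · rw [hb1 v hv]; exact hcfg.card v hv
        · rw [hb2 v hv]; exact hTc
      · intro v hv w hw
        rcases mem_union.mp hv with hv | hv <;> rcases mem_union.mp hw with hw | hw
        · rw [hb1 v hv, hb1 w hw]; exact hcfg.eqd v hv w hw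
        · rw [hb1 v hv, hb2 w hw]; exact Or.inr (hTb v hv)
        · rw [hb2 v hv, hb1 w hw]; exact Or.inr (hTb w hw).symm
        · rw [hb2 v hv, hb2 w hw]; exact Or.inl rfl
      · intro v hv w hw
        rcases mem_union.mp hv with hv | hv <;> rcases mem_union.mp hw with hw | hw
        · rw [hb1 v hv]; exact hcfg.out v hv w hw
        · rw [hb1 v hv]; exact hUH w (hSU hw) v hv
        · rw [hb2 v hv]; exact fun h => hUL w (hT h) hw
        · rw [hb2 v hv]; exact hST w hw
    have h1 := hmax' _ _ hc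
    have h2 : ((L ∪ S).image b').card ≤ m + 1 := by
      have : (L ∪ S).image b' ⊆ insert T (L.image b) := by
        intro z hz
        rw [mem_image] at hz
        obtain ⟨v, hv, rfl⟩ := hz
        rcases mem_union.mp hv with hv | hv
        · rw [hb1 v hv]; exact mem_insert_of_mem (mem_image_of_mem _ hv)
        · rw [hb2 v hv]; exact mem_insert_self _ _
      exact (card_le_card this).trans (card_insert_le _ _)
    rw [card_union_of_disjoint hdis] at h1
    by_contra hcon
    push Not at hcon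
    have h3 : (s : ℤ) * ((((L ∪ S).image b').card : ℕ) : ℤ) ≤ s * ((m : ℤ) + 1) := by
      apply mul_le_mul_of_nonneg_left _ (by positivity)
      exact_mod_cast h2
    have h4 : (s : ℤ) < (S.card : ℤ) := by exact_mod_cast hcon
    push_cast at h1
    linarith
  -- common neighbours in `U` of leaves
  have hTL : ∀ T : Finset V, T ⊆ L → T.card = t →
      (U.filter fun y => ∀ x ∈ T, G.Adj x y).card ≤ s + t := by
    intro T hT hTc
    set S := U.filter fun y => ∀ x ∈ T, G.Adj x y with hS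
    have hSU : S ⊆ U := filter_subset _ _
    have hSadj : ∀ y ∈ S, ∀ x ∈ T, G.Adj x y := fun y hy => (mem_filter.mp hy).2
    have hST : ∀ y ∈ S, y ∉ T := fun y hy hyT => G.loopless.irrefl _ (hSadj y hy y hyT)
    have hdis : Disjoint (L \ T) S :=
      disjoint_left.mpr fun z hz hzS => hUL z (hSU hzS) (mem_sdiff.mp hz).1
    let b' : V → Finset V := fun v => if v ∈ L then b v else T
    have hb1 : ∀ v ∈ L \ T, b' v = b v := fun v hv => by simp [b', (mem_sdiff.mp hv).1]
    have hb2 : ∀ v ∈ S, b' v = T := fun v hv => by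
      have : v ∉ L := hUL v (hSU hv)
      simp [b', this]
    have hTb : ∀ v ∈ L, Disjoint (b v) T := fun v hv =>
      disjoint_left.mpr fun z hz hzT => hcfg.out v hv z (hT hzT) hz
    have hc : Cfg G t ((L \ T) ∪ S) b' := by
      refine ⟨?_, ?_, ?_, ?_⟩
      · intro v hv z hz
        rcases mem_union.mp hv with hv | hv
        · rw [hb1 v hv] at hz; exact hcfg.adj v (mem_sdiff.mp hv).1 z hz
        · rw [hb2 v hv] at hz; exact (hSadj v hv z hz).symm
      · intro v hv
        rcases mem_union.mp hv with hv | hv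
        · rw [hb1 v hv]; exact hcfg.card v (mem_sdiff.mp hv).1
        · rw [hb2 v hv]; exact hTc
      · intro v hv w hw
        rcases mem_union.mp hv with hv | hv <;> rcases mem_union.mp hw with hw | hw
        · rw [hb1 v hv, hb1 w hw]; exact hcfg.eqd v (mem_sdiff.mp hv).1 w (mem_sdiff.mp hw).1
        · rw [hb1 v hv, hb2 w hw]; exact Or.inr (hTb v (mem_sdiff.mp hv).1)
        · rw [hb2 v hv, hb1 w hw]; exact Or.inr (hTb w (mem_sdiff.mp hw).1).symm
        · rw [hb2 v hv, hb2 w hw]; exact Or.inl rfl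
      · intro v hv w hw
        rcases mem_union.mp hv with hv | hv <;> rcases mem_union.mp hw with hw | hw
        · rw [hb1 v hv]; exact hcfg.out v (mem_sdiff.mp hv).1 w (mem_sdiff.mp hw).1
        · rw [hb1 v hv]; exact hUH w (hSU hw) v (mem_sdiff.mp hv).1
        · rw [hb2 v hv]; exact (mem_sdiff.mp hw).2
        · rw [hb2 v hv]; exact hST w hw
    have h1 := hmax' _ _ hc
    have h2 : (((L \ T) ∪ S).image b').card ≤ m + 1 := by
      have : ((L \ T) ∪ S).image b' ⊆ insert T (L.image b) := by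
        intro z hz
        rw [mem_image] at hz
        obtain ⟨v, hv, rfl⟩ := hz
        rcases mem_union.mp hv with hv | hv
        · rw [hb1 v hv]; exact mem_insert_of_mem (mem_image_of_mem _ (mem_sdiff.mp hv).1)
        · rw [hb2 v hv]; exact mem_insert_self _ _
      exact (card_le_card this).trans (card_insert_le _ _)
    have h5 : (L \ T).card + t = L.card := by
      rw [← hTc]; exact card_sdiff_add_card_eq_card hT
    rw [card_union_of_disjoint hdis] at h1
    by_contra hcon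
    push Not at hcon
    have h3 : (s : ℤ) * (((((L \ T) ∪ S).image b').card : ℕ) : ℤ) ≤ s * ((m : ℤ) + 1) := by
      apply mul_le_mul_of_nonneg_left _ (by positivity)
      exact_mod_cast h2
    have h4 : (s : ℤ) + t < (S.card : ℤ) := by exact_mod_cast hcon
    have h6 : ((L \ T).card : ℤ) + t = L.card := by exact_mod_cast h5
    push_cast at h1
    linarith
  have hx := kst U U t s ht hTU
  have hy := kst L U t (s + t) ht hTL
  refine ⟨L, b, ∑ y ∈ U, (U.filter fun x => G.Adj x y).card,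
    ∑ y ∈ U, (L.filter fun x => G.Adj x y).card, Hb.card, n, hcfg, hLk, ni_bound ht hG,
    ?_, ?_, ?_, ?_⟩
  · calc s * Hb.card ≤ s * (t * m) := Nat.mul_le_mul_left _ hHcard
      _ = t * (s * m) := by ring
      _ ≤ t * L.card := Nat.mul_le_mul_left _ h0
      _ ≤ k := hLk.le
  · calc _ ≤ (∑ y ∈ U, (U.filter fun x => G.Adj x y).card - t * U.card) ^ t := by
          apply Nat.pow_le_pow_left
          have := Nat.mul_le_mul_left t hUc
          omega
      _ ≤ _ := hx
      _ ≤ s * n ^ t * n ^ (t - 1) := by gcongr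
      _ = s * n ^ (2 * t - 1) := by
          rw [mul_assoc, ← pow_add]; congr 2; omega
  · calc _ ≤ (∑ y ∈ U, (L.filter fun x => G.Adj x y).card - t * U.card) ^ t := by
          apply Nat.pow_le_pow_left
          have := Nat.mul_le_mul_left t hUc
          omega
      _ ≤ _ := hy
      _ ≤ (s + t) * n ^ t * n ^ (t - 1) := by gcongr
      _ = (s + t) * n ^ (2 * t - 1) := by
          rw [mul_assoc, ← pow_add]; congr 2; omega
  · rw [two_edges]
    unfold E2
    have hsub : ((univ : Finset (V × V)).filter fun p => G.Adj p.1 p.2) ⊆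
        ((L ×ˢ L).filter fun p => G.Adj p.1 p.2) ∪ (Hb ×ˢ ni G) ∪ (ni G ×ˢ Hb) ∪
          ((U ×ˢ U).filter fun p => G.Adj p.1 p.2) ∪
          ((L ×ˢ U).filter fun p => G.Adj p.1 p.2) ∪ ((U ×ˢ L).filter fun p => G.Adj p.1 p.2) := by
      rintro ⟨x, y⟩ hxy
      simp only [mem_filter, mem_univ, true_and] at hxy
      have hx : x ∈ ni G := mem_ni.mpr ⟨y, hxy⟩
      have hy : y ∈ ni G := mem_ni.mpr ⟨x, hxy.symm⟩
      simp only [mem_union, mem_filter, mem_product]
      by_cases hxH : x ∈ Hb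
      · left; left; left; left; right; exact ⟨hxH, hy⟩
      by_cases hyH : y ∈ Hb
      · left; left; left; right; exact ⟨hx, hyH⟩
      by_cases hxL : x ∈ L <;> by_cases hyL : y ∈ L
      · left; left; left; left; left; exact ⟨⟨hxL, hyL⟩, hxy⟩
      · left; right
        refine ⟨⟨hxL, ?_⟩, hxy⟩
        rw [hU, mem_sdiff, mem_union]
        exact ⟨hy, by tauto⟩
      · right
        refine ⟨⟨?_, hyL⟩, hxy⟩
        rw [hU, mem_sdiff, mem_union]
        exact ⟨hx, by tauto⟩
      · left; left; right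
        refine ⟨⟨?_, ?_⟩, hxy⟩
        · rw [hU, mem_sdiff, mem_union]
          exact ⟨hx, by tauto⟩
        · rw [hU, mem_sdiff, mem_union]
          exact ⟨hy, by tauto⟩
    have hflip : ((U ×ˢ L).filter fun p => G.Adj p.1 p.2).card =
        ((L ×ˢ U).filter fun p => G.Adj p.1 p.2).card := by
      apply card_bij (fun p _ => p.swap)
      · rintro ⟨x, y⟩ hp
        simp only [mem_filter, mem_product, Prod.swap] at hp ⊢
        exact ⟨hp.1.symm, hp.2.symm⟩
      · rintro ⟨x, y⟩ _ ⟨x', y'⟩ _ h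
        simp only [Prod.swap, Prod.mk.injEq] at h
        exact Prod.ext h.2 h.1
      · rintro ⟨x, y⟩ hp
        simp only [mem_filter, mem_product] at hp
        refine ⟨(y, x), ?_, rfl⟩
        simp only [mem_filter, mem_product]
        exact ⟨hp.1.symm, hp.2.symm⟩
    have h1 := card_le_card hsub
    have h2 := card_union_le (((L ×ˢ L).filter fun p => G.Adj p.1 p.2) ∪ (Hb ×ˢ ni G) ∪
      (ni G ×ˢ Hb) ∪
      ((U ×ˢ U).filter fun p => G.Adj p.1 p.2) ∪ ((L ×ˢ U).filter fun p => G.Adj p.1 p.2))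
      ((U ×ˢ L).filter fun p => G.Adj p.1 p.2)
    have h3 := card_union_le (((L ×ˢ L).filter fun p => G.Adj p.1 p.2) ∪ (Hb ×ˢ ni G) ∪
      (ni G ×ˢ Hb) ∪
      ((U ×ˢ U).filter fun p => G.Adj p.1 p.2)) ((L ×ˢ U).filter fun p => G.Adj p.1 p.2)
    have h4 := card_union_le (((L ×ˢ L).filter fun p => G.Adj p.1 p.2) ∪ (Hb ×ˢ ni G) ∪
      (ni G ×ˢ Hb)) ((U ×ˢ U).filter fun p => G.Adj p.1 p.2)
    have h5 := card_union_le (((L ×ˢ L).filter fun p => G.Adj p.1 p.2) ∪ (Hb ×ˢ ni G)) (ni G ×ˢ Hb)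
    have h6 := card_union_le ((L ×ˢ L).filter fun p => G.Adj p.1 p.2) (Hb ×ˢ ni G)
    rw [hflip] at h2
    rw [pairs_eq (A := L) (B := U)] at h2 h3
    rw [pairs_eq (A := U) (B := U)] at h4
    rw [card_product] at h5
    rw [card_product Hb] at h6
    rw [mul_comm (ni G).card] at h5
    linarith

/-- Every subgraph with `k` edges contains a path with `2 t` edges. -/
def SmallE (G : SimpleGraph V) (t k : ℕ) : Prop :=
  ∀ H : SimpleGraph V, H ≤ G → (SimpleGraph.pathGraph (2 * t + 1)).Free H → H.edgeSet.ncard < k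

theorem free_mono {m n : ℕ} (hmn : m ≤ n) {H : SimpleGraph V}
    (h : (SimpleGraph.pathGraph m).Free H) : (SimpleGraph.pathGraph n).Free H := by
  rintro ⟨f⟩
  apply h
  refine ⟨⟨⟨fun i => f (Fin.castLE hmn i), ?_⟩, ?_⟩⟩
  · intro a b hab
    apply f.toHom.map_adj
    rw [SimpleGraph.pathGraph_adj] at hab ⊢
    simpa using hab
  · intro a b hab
    have := f.injective hab
    exact Fin.castLE_injective hmn this

theorem small_of_smallE {t k : ℕ} (ht : 2 ≤ t) (hG : SmallE G t k) : Small G (t - 1) k := by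
  intro H hH hfree
  exact hG H hH (free_mono (by omega) hfree)

/-- The edges of `G` inside the sets of a family. -/
def bg (G : SimpleGraph V) (𝓑 : Finset (Finset V)) : SimpleGraph V where
  Adj x y := G.Adj x y ∧ ∃ B ∈ 𝓑, x ∈ B ∧ y ∈ B
  symm := ⟨by
    rintro x y ⟨h, B, hB, hx, hy⟩
    exact ⟨h.symm, B, hB, hy, hx⟩⟩
  loopless := ⟨fun x h => G.loopless.irrefl x h.1⟩

section comb

variable {t k : ℕ} {L : Finset V} {b : V → Finset V} {𝓑 : Finset (Finset V)}

theorem not_cg {c : ℕ} (hcfg : Cfg G c L b) (hBL : ∀ B ∈ 𝓑, B ⊆ L) {B : Finset V} (hB : B ∈ 𝓑)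
    {x y : V} (hx : x ∈ B) (h : (cg (L \ 𝓑.biUnion id) b).Adj x y) : False := by
  rcases cg_adj h with ⟨h1, -⟩ | ⟨h1, h2⟩
  · exact (mem_sdiff.mp h1).2 (mem_biUnion.mpr ⟨B, hB, hx⟩)
  · exact hcfg.out y (mem_sdiff.mp h1).1 x (hBL B hB hx) h2

theorem Cfg.mono {c : ℕ} (hcfg : Cfg G c L b) {L' : Finset V} (h : L' ⊆ L) : Cfg G c L' b :=
  ⟨fun v hv => hcfg.adj v (h hv), fun v hv => hcfg.card v (h hv),
    fun v hv w hw => hcfg.eqd v (h hv) w (h hw), fun v hv w hw => hcfg.out v (h hv) w (h hw)⟩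

theorem comb_free (ht : 2 ≤ t) (hcfg : Cfg G (t - 1) L b) (hB : ∀ B ∈ 𝓑, B.card = 2 * t)
    (hBL : ∀ B ∈ 𝓑, B ⊆ L) (hdis : ∀ B ∈ 𝓑, ∀ B' ∈ 𝓑, B ≠ B' → Disjoint B B') :
    (SimpleGraph.pathGraph (2 * t + 1)).Free (cg (L \ 𝓑.biUnion id) b ⊔ bg G 𝓑) := by
  rintro ⟨f⟩
  have hinj : Function.Injective f := f.injective
  have hadj : ∀ i (hi : i + 1 < 2 * t + 1), (cg (L \ 𝓑.biUnion id) b ⊔ bg G 𝓑).Adj
      (f ⟨i, by omega⟩) (f ⟨i + 1, hi⟩) := by
    intro i hi
    apply f.toHom.map_adj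
    rw [SimpleGraph.pathGraph_adj]
    left; rfl
  -- neighbours stay in the same block
  have hstay : ∀ B ∈ 𝓑, ∀ x y, (cg (L \ 𝓑.biUnion id) b ⊔ bg G 𝓑).Adj x y → x ∈ B → y ∈ B := by
    intro B hBB x y hxy hx
    rw [SimpleGraph.sup_adj] at hxy
    rcases hxy with h | ⟨-, B', hB', hx', hy'⟩
    · exact absurd h fun h => not_cg hcfg hBL hBB hx h
    · by_cases hBe : B = B'
      · rw [hBe]; exact hy'
      · exact absurd hx' (disjoint_left.mp (hdis B hBB B' hB' hBe) hx)
  by_cases hex : ∃ B ∈ 𝓑, f ⟨0, by omega⟩ ∈ B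
  · obtain ⟨B, hBB, h0⟩ := hex
    have hall : ∀ i (hi : i < 2 * t + 1), f ⟨i, hi⟩ ∈ B := by
      intro i
      induction i with
      | zero => intro _; exact h0
      | succ i ih =>
        intro hi
        exact hstay B hBB _ _ (hadj i hi) (ih (by omega))
    have h1 : (univ.image f) ⊆ B := by
      intro z hz
      rw [mem_image] at hz
      obtain ⟨i, -, rfl⟩ := hz
      exact hall i.val i.isLt
    have h2 := card_le_card h1
    rw [card_image_of_injective _ hinj, card_univ, Fintype.card_fin, hB B hBB] at h2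
    omega
  · push Not at hex
    have hall : ∀ i (hi : i < 2 * t + 1), ∀ B ∈ 𝓑, f ⟨i, hi⟩ ∉ B := by
      intro i
      induction i with
      | zero => intro _; exact hex
      | succ i ih =>
        intro hi B hBB hmem
        exact ih (by omega) B hBB (hstay B hBB _ _ (hadj i hi).symm hmem)
    have hfree : (SimpleGraph.pathGraph (2 * t + 1)).Free (cg (L \ 𝓑.biUnion id) b) := by
      have := cg_free (t := t - 1) (by omega) le_rfl (hcfg.mono (L' := L \ 𝓑.biUnion id) sdiff_subset)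
      exact free_mono (by omega) this
    apply hfree
    refine ⟨⟨⟨f, ?_⟩, hinj⟩⟩
    intro x y hxy
    have h1 : (cg (L \ 𝓑.biUnion id) b ⊔ bg G 𝓑).Adj (f x) (f y) := f.toHom.map_adj hxy
    rw [SimpleGraph.sup_adj] at h1
    rcases h1 with h | ⟨-, B, hBB, hx, -⟩
    · exact h
    · exact absurd hx (hall x.val x.isLt B hBB)

theorem comb_card (ht : 2 ≤ t) (hcfg : Cfg G (t - 1) L b) (hB : ∀ B ∈ 𝓑, B.card = 2 * t)
    (hBL : ∀ B ∈ 𝓑, B ⊆ L) (hdis : ∀ B ∈ 𝓑, ∀ B' ∈ 𝓑, B ≠ B' → Disjoint B B') :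
    ((t : ℝ) - 1) * L.card + ∑ B ∈ 𝓑, gv G t B ≤
      ((cg (L \ 𝓑.biUnion id) b ⊔ bg G 𝓑).edgeSet.ncard : ℝ) := by
  have h1 : (t - 1) * (L \ 𝓑.biUnion id).card ≤ (cg (L \ 𝓑.biUnion id) b).edgeSet.ncard :=
    cg_card (hcfg.mono sdiff_subset)
  have hU : 𝓑.biUnion id ⊆ L := by
    intro z hz
    rw [mem_biUnion] at hz
    obtain ⟨B, hBB, hz⟩ := hz
    exact hBL B hBB hz
  have hUc : (𝓑.biUnion id).card = 𝓑.card * (2 * t) := by
    rw [card_biUnion (s := 𝓑) (t := id) (fun B hB' B' hB'' hne => hdis B hB' B' hB'' hne)]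
    rw [sum_congr rfl fun B hB' => show (id B).card = 2 * t from hB B hB', sum_const, smul_eq_mul]
  have h2 : ∑ B ∈ 𝓑, E2 G B ≤ 2 * (bg G 𝓑).edgeSet.ncard := by
    rw [two_edges]
    have h3 : ∑ B ∈ 𝓑, E2 G B =
        (𝓑.biUnion fun B => (B ×ˢ B).filter fun p => G.Adj p.1 p.2).card := by
      rw [card_biUnion]
      · rfl
      · intro B hB' B' hB'' hne
        show Disjoint _ _
        rw [disjoint_left]
        rintro ⟨x, y⟩ hx hy
        rw [mem_filter, mem_product] at hx hy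
        exact disjoint_left.mp (hdis B hB' B' hB'' hne) hx.1.1 hy.1.1
    rw [h3]
    apply card_le_card
    rintro ⟨x, y⟩ hxy
    rw [mem_biUnion] at hxy
    obtain ⟨B, hBB, hxy⟩ := hxy
    rw [mem_filter, mem_product] at hxy
    rw [mem_filter]
    exact ⟨mem_univ _, hxy.2, B, hBB, hxy.1.1, hxy.1.2⟩
  have h4 : (cg (L \ 𝓑.biUnion id) b ⊔ bg G 𝓑).edgeSet.ncard =
      (cg (L \ 𝓑.biUnion id) b).edgeSet.ncard + (bg G 𝓑).edgeSet.ncard := by
    rw [SimpleGraph.edgeSet_sup]
    apply Set.ncard_union_eq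
    · rw [Set.disjoint_left]
      intro z
      refine Sym2.ind (fun x y hxy hxy' => ?_) z
      rw [SimpleGraph.mem_edgeSet] at hxy hxy'
      obtain ⟨-, B, hBB, hx, -⟩ := hxy'
      exact not_cg hcfg hBL hBB hx hxy
    · exact Set.toFinite _
    · exact Set.toFinite _
  have h5 : ((L \ 𝓑.biUnion id).card : ℝ) = L.card - 𝓑.card * (2 * t) := by
    have := card_sdiff_add_card_eq_card hU
    rw [hUc] at this
    have h6 : ((L \ 𝓑.biUnion id).card : ℝ) + 𝓑.card * (2 * t) = L.card := by exact_mod_cast this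
    linarith
  have h6 : ((t : ℝ) - 1) * (L.card - 𝓑.card * (2 * t)) ≤
      (cg (L \ 𝓑.biUnion id) b).edgeSet.ncard := by
    rw [← h5]
    have h7 : (((t - 1) * (L \ 𝓑.biUnion id).card : ℕ) : ℝ) ≤
      (cg (L \ 𝓑.biUnion id) b).edgeSet.ncard := by exact_mod_cast h1
    rw [Nat.cast_mul, Nat.cast_sub (by omega : 1 ≤ t)] at h7
    simpa using h7
  have h7 : (∑ B ∈ 𝓑, (E2 G B : ℝ)) ≤ 2 * (bg G 𝓑).edgeSet.ncard := by exact_mod_cast h2
  have h8 : ∑ B ∈ 𝓑, gv G t B = (∑ B ∈ 𝓑, (E2 G B : ℝ)) / 2 - 𝓑.card * (2 * t * (t - 1)) := by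
    unfold gv
    rw [sum_sub_distrib, sum_const, nsmul_eq_mul, sum_div]
  rw [h4, h8]
  push_cast
  linarith

end comb

end Pool.Agent.Q263.InvT
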