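import Mathlib

/-!
# Fractional packings of clique blocks

Block vectors: `m : W → Fin 3` with sum `2 t` whose support is a clique. The gain of a block is the
size of its support minus `t`. For nonnegative weights `w` on the vertices there is a fractional
packing with gain at least `(N ^ 2 - t A) / (2 N)`, where `N` is the total weight and `A` the weight
of the pairs of vertices that are equal or not adjacent.
-/

set_option autoImplicit false
set_option linter.unusedSectionVars false
open Finset
open scoped Classical

namespace Pool.Agent.Q263.InvT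

variable {W : Type*} [Fintype W]

/-- `m` is a block vector. -/
def IsB (G : SimpleGraph W) (t : ℕ) (m : W → Fin 3) : Prop :=
  ∑ x, (m x).val = 2 * t ∧ ∀ x y, m x ≠ 0 → m y ≠ 0 → x ≠ y → G.Adj x y

/-- The gain of a block. -/
noncomputable def gn (t : ℕ) (m : W → Fin 3) : ℝ := ∑ x, min ((m x).val : ℝ) 1 - t

/-- There is a fractional packing with capacities `w` and gain at least `v`. -/
def Pk (G : SimpleGraph W) (t : ℕ) (w : W → ℝ) (v : ℝ) : Prop :=
  ∃ lam : (W → Fin 3) → ℝ, (∀ m, 0 ≤ lam m) ∧ (∀ m, lam m ≠ 0 → IsB G t m) ∧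
    (∀ x, ∑ m, lam m * ((m x).val : ℝ) ≤ w x) ∧ v ≤ ∑ m, lam m * gn t m

variable {G : SimpleGraph W} {t : ℕ}

theorem Pk.mono {w w' : W → ℝ} {v v' : ℝ} (h : Pk G t w v) (hw : ∀ x, w x ≤ w' x) (hv : v' ≤ v) :
    Pk G t w' v' := by
  obtain ⟨lam, h1, h2, h3, h4⟩ := h
  exact ⟨lam, h1, h2, fun x => (h3 x).trans (hw x), hv.trans h4⟩

theorem Pk.zero {w : W → ℝ} (hw : ∀ x, 0 ≤ w x) {v : ℝ} (hv : v ≤ 0) : Pk G t w v :=
  ⟨fun _ => 0, by simp, by simp, by simpa using hw, by simpa using hv⟩

theorem Pk.scale {w : W → ℝ} {v c : ℝ} (hc : 0 ≤ c) (h : Pk G t w v) :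
    Pk G t (fun x => c * w x) (c * v) := by
  obtain ⟨lam, h1, h2, h3, h4⟩ := h
  refine ⟨fun m => c * lam m, fun m => mul_nonneg hc (h1 m), ?_, ?_, ?_⟩
  · intro m hm
    exact h2 m fun h0 => hm (by simp [h0])
  · intro x
    calc ∑ m, c * lam m * ((m x).val : ℝ) = c * ∑ m, lam m * ((m x).val : ℝ) := by
          rw [mul_sum]; exact sum_congr rfl fun m _ => by ring
      _ ≤ c * w x := mul_le_mul_of_nonneg_left (h3 x) hc
  · calc c * v ≤ c * ∑ m, lam m * gn t m := mul_le_mul_of_nonneg_left h4 hc
      _ = ∑ m, c * lam m * gn t m := by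
          rw [mul_sum]; exact sum_congr rfl fun m _ => by ring

theorem Pk.add {w w' : W → ℝ} {v v' : ℝ} (h : Pk G t w v) (h' : Pk G t w' v') :
    Pk G t (fun x => w x + w' x) (v + v') := by
  obtain ⟨lam, h1, h2, h3, h4⟩ := h
  obtain ⟨lam', h1', h2', h3', h4'⟩ := h'
  refine ⟨fun m => lam m + lam' m, fun m => add_nonneg (h1 m) (h1' m), ?_, ?_, ?_⟩
  · intro m hm
    by_cases h0 : lam m = 0
    · exact h2' m fun h0' => hm (by simp [h0, h0'])
    · exact h2 m h0
  · intro x
    have e : ∑ m, (lam m + lam' m) * ((m x).val : ℝ) =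
        ∑ m, lam m * ((m x).val : ℝ) + ∑ m, lam' m * ((m x).val : ℝ) := by
      rw [← sum_add_distrib]; exact sum_congr rfl fun m _ => by ring
    rw [e]; exact add_le_add (h3 x) (h3' x)
  · have e : ∑ m, (lam m + lam' m) * gn t m =
        ∑ m, lam m * gn t m + ∑ m, lam' m * gn t m := by
      rw [← sum_add_distrib]; exact sum_congr rfl fun m _ => by ring
    rw [e]; exact add_le_add h4 h4'

theorem Pk.comb {w w' w'' : W → ℝ} {v v' v'' θ : ℝ} (h0 : 0 ≤ θ) (h1 : θ ≤ 1)
    (h' : Pk G t w' v') (h'' : Pk G t w'' v'')
    (hw : ∀ x, θ * w' x + (1 - θ) * w'' x ≤ w x) (hv : v ≤ θ * v' + (1 - θ) * v'') :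
    Pk G t w v :=
  ((h'.scale h0).add (h''.scale (by linarith : 0 ≤ 1 - θ))).mono hw hv

/-- The gain function on real vectors. -/
noncomputable def gr (t : ℕ) (m : W → ℝ) : ℝ := ∑ x, min (m x) 1 - t

/-- The coordinates that are not integers. -/
noncomputable def fr (m : W → ℝ) : Finset W := univ.filter fun x => m x ≠ 0 ∧ m x ≠ 1 ∧ m x ≠ 2

theorem mem_fr {m : W → ℝ} {x : W} : x ∈ fr m ↔ m x ≠ 0 ∧ m x ≠ 1 ∧ m x ≠ 2 := by simp [fr]

/-- the transfer of an amount `s` from `y` to `x` -/
noncomputable def tr (m : W → ℝ) (x y : W) (s : ℝ) : W → ℝ :=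
  fun z => if z = x then m z + s else if z = y then m z - s else m z

theorem tr_sum {m : W → ℝ} {x y : W} (hxy : x ≠ y) (s : ℝ) : ∑ z, tr m x y s z = ∑ z, m z := by
  have e : ∀ z, tr m x y s z = m z + ((if z = x then s else 0) - (if z = y then s else 0)) := by
    intro z
    unfold tr
    by_cases h1 : z = x
    · subst h1; simp [hxy]
    · by_cases h2 : z = y
      · subst h2; simp [h1]; ring
      · simp [h1, h2]
  rw [sum_congr rfl fun z _ => e z, sum_add_distrib, sum_sub_distrib]
  simp

/-- Rounding. -/
theorem rounding (n : ℕ) : ∀ m : W → ℝ, (fr m).card ≤ n → (∀ x, 0 ≤ m x) → (∀ x, m x ≤ 2) →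
    ∑ x, m x = 2 * t → (∀ x y, m x ≠ 0 → m y ≠ 0 → x ≠ y → G.Adj x y) → Pk G t m (gr t m) := by
  induction n with
  | zero =>
    intro m hfr h0 h2 hsum hcl
    have hint : ∀ x, m x = 0 ∨ m x = 1 ∨ m x = 2 := by
      intro x
      by_contra hcon
      push Not at hcon
      have : x ∈ fr m := mem_fr.mpr hcon
      rw [Nat.le_zero, card_eq_zero] at hfr
      rw [hfr] at this
      exact absurd this (notMem_empty x)
    let b : W → Fin 3 := fun x => if m x = 0 then 0 else if m x = 1 then 1 else 2
    have hb : ∀ x, ((b x).val : ℝ) = m x := by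
      intro x
      rcases hint x with h | h | h
      · simp [b, h]
      · simp [b, h]
      · have h1 : (2 : ℝ) ≠ 1 := by norm_num
        simp [b, h, h1]
    refine ⟨fun m' => if m' = b then 1 else 0, ?_, ?_, ?_, ?_⟩
    · intro m'
      show (0 : ℝ) ≤ if m' = b then 1 else 0
      split_ifs <;> norm_num
    · intro m' hm'
      have : m' = b := by
        by_contra h; exact hm' (by simp [h])
      subst this
      constructor
      · have : ((∑ x, (b x).val : ℕ) : ℝ) = ((2 * t : ℕ) : ℝ) := by
          push_cast
          rw [← hsum]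
          exact sum_congr rfl fun x _ => hb x
        exact_mod_cast this
      · intro x y hx hy hxy
        apply hcl x y _ _ hxy
        · rw [← hb x]
          intro h
          apply hx
          have : (b x).val = 0 := by exact_mod_cast h
          exact Fin.ext this
        · rw [← hb y]
          intro h
          apply hy
          have : (b y).val = 0 := by exact_mod_cast h
          exact Fin.ext this
    · intro x
      simp [hb]
    · have : gn t b = gr t m := by
        unfold gn gr
        rw [sum_congr rfl fun x _ => by rw [hb x]]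
      simp [this]
  | succ n ih =>
    intro m hfr h0 h2 hsum hcl
    by_cases hlt : (fr m).card ≤ n
    · exact ih m hlt h0 h2 hsum hcl
    have hcard : (fr m).card = n + 1 := by omega
    have hne : (fr m).Nonempty := by rw [← card_pos]; omega
    obtain ⟨x, hx⟩ := hne
    -- a second fractional coordinate
    have hy : ∃ y ∈ fr m, y ≠ x := by
      by_contra hcon
      push Not at hcon
      have hrest : ∀ z, z ≠ x → ∃ k : ℤ, m z = k := by
        intro z hz
        by_contra hk
        push Not at hk
        have : z ∈ fr m := mem_fr.mpr ⟨fun h => hk 0 (by simpa using h),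
          fun h => hk 1 (by simpa using h), fun h => hk 2 (by simpa using h)⟩
        exact hz (hcon z this)
      have hex : ∃ k : ℤ, ∑ z ∈ univ.erase x, m z = k := by
        choose! f hf using hrest
        refine ⟨∑ z ∈ univ.erase x, f z, ?_⟩
        push_cast
        exact sum_congr rfl fun z hz => hf z (mem_erase.mp hz).1
      obtain ⟨k, hk⟩ := hex
      rw [← add_sum_erase _ _ (mem_univ x), hk] at hsum
      have hmx : m x = ((2 * t - k : ℤ) : ℝ) := by push_cast; linarith
      have hx' := mem_fr.mp hx
      have h3 : (0 : ℤ) ≤ 2 * t - k := by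
        have := h0 x; rw [hmx] at this; exact_mod_cast this
      have h4 : (2 * t - k : ℤ) ≤ 2 := by
        have := h2 x; rw [hmx] at this; exact_mod_cast this
      have h5 : (2 * t - k : ℤ) = 0 ∨ (2 * t - k : ℤ) = 1 ∨ (2 * t - k : ℤ) = 2 := by omega
      rcases h5 with h5 | h5 | h5
      · rw [h5] at hmx; exact hx'.1 (by simpa using hmx)
      · rw [h5] at hmx; exact hx'.2.1 (by simpa using hmx)
      · rw [h5] at hmx; exact hx'.2.2 (by simpa using hmx)
    obtain ⟨y, hyf, hyx⟩ := hy
    -- cells
    have cell : ∀ z ∈ fr m, ∃ l : ℝ, (l = 0 ∨ l = 1) ∧ l < m z ∧ m z < l + 1 := by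
      intro z hz
      have hz' := mem_fr.mp hz
      rcases lt_trichotomy (m z) 1 with h | h | h
      · exact ⟨0, Or.inl rfl, lt_of_le_of_ne (h0 z) (Ne.symm hz'.1), by linarith⟩
      · exact absurd h hz'.2.1
      · exact ⟨1, Or.inr rfl, h, by
          have := lt_of_le_of_ne (h2 z) hz'.2.2
          linarith⟩
    obtain ⟨lx, hlx, hlx1, hlx2⟩ := cell x hx
    obtain ⟨ly, hly, hly1, hly2⟩ := cell y hyf
    -- the two extreme transfers
    have key : ∀ s : ℝ, lx ≤ m x + s → m x + s ≤ lx + 1 → ly ≤ m y - s → m y - s ≤ ly + 1 →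
        (m x + s = lx ∨ m x + s = lx + 1 ∨ m y - s = ly ∨ m y - s = ly + 1) →
        Pk G t (tr m x y s) (gr t (tr m x y s)) := by
      intro s a1 a2 a3 a4 a5
      have hlx0 : 0 ≤ lx ∧ lx ≤ 1 := by rcases hlx with h | h <;> rw [h] <;> norm_num
      have hly0 : 0 ≤ ly ∧ ly ≤ 1 := by rcases hly with h | h <;> rw [h] <;> norm_num
      have tx : tr m x y s x = m x + s := by simp [tr]
      have ty : tr m x y s y = m y - s := by simp [tr, hyx]
      have tz : ∀ z, z ≠ x → z ≠ y → tr m x y s z = m z := by
        intro z hz1 hz2; simp [tr, hz1, hz2]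
      apply ih
      · have hsub : fr (tr m x y s) ⊆ fr m := by
          intro z hz
          by_cases hz1 : z = x
          · rw [hz1]; exact hx
          · by_cases hz2 : z = y
            · rw [hz2]; exact hyf
            · rw [mem_fr, tz z hz1 hz2] at hz
              exact mem_fr.mpr hz
        have hint : ∀ l u : ℝ, (l = 0 ∨ l = 1) → (u = l ∨ u = l + 1) → ¬ (u ≠ 0 ∧ u ≠ 1 ∧ u ≠ 2) := by
          intro l u hl hu
          rcases hl with rfl | rfl <;> rcases hu with rfl | rfl <;> norm_num
        have hss : fr (tr m x y s) ⊂ fr m := by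
          rw [ssubset_iff_of_subset hsub]
          rcases a5 with h | h | h | h
          · refine ⟨x, hx, fun hc => ?_⟩
            rw [mem_fr, tx] at hc
            exact hint lx _ hlx (Or.inl h) hc
          · refine ⟨x, hx, fun hc => ?_⟩
            rw [mem_fr, tx] at hc
            exact hint lx _ hlx (Or.inr h) hc
          · refine ⟨y, hyf, fun hc => ?_⟩
            rw [mem_fr, ty] at hc
            exact hint ly _ hly (Or.inl h) hc
          · refine ⟨y, hyf, fun hc => ?_⟩
            rw [mem_fr, ty] at hc
            exact hint ly _ hly (Or.inr h) hc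
        have := card_lt_card hss
        omega
      · intro z
        by_cases hz1 : z = x
        · rw [hz1, tx]; linarith
        · by_cases hz2 : z = y
          · rw [hz2, ty]; linarith
          · rw [tz z hz1 hz2]; exact h0 z
      · intro z
        by_cases hz1 : z = x
        · rw [hz1, tx]; linarith
        · by_cases hz2 : z = y
          · rw [hz2, ty]; linarith
          · rw [tz z hz1 hz2]; exact h2 z
      · rw [tr_sum hyx.symm]; exact hsum
      · have hsupp : ∀ z, tr m x y s z ≠ 0 → m z ≠ 0 := by
          intro z hz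
          by_cases hz1 : z = x
          · rw [hz1]; exact (mem_fr.mp hx).1
          · by_cases hz2 : z = y
            · rw [hz2]; exact (mem_fr.mp hyf).1
            · rwa [tz z hz1 hz2] at hz
        intro a b ha hb hab
        exact hcl a b (hsupp a ha) (hsupp b hb) hab
    set α := min (m x - lx) (ly + 1 - m y) with hα
    set β := min (lx + 1 - m x) (m y - ly) with hβ
    have hαp : 0 < α := lt_min (by linarith) (by linarith)
    have hβp : 0 < β := lt_min (by linarith) (by linarith)
    have k1 := key (-α) (by have := min_le_left (m x - lx) (ly + 1 - m y); linarith)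
      (by linarith) (by linarith) (by have := min_le_right (m x - lx) (ly + 1 - m y); linarith) (by
        rcases min_choice (m x - lx) (ly + 1 - m y) with h | h
        · left; rw [hα, h]; ring
        · right; right; right; rw [hα, h]; ring)
    have k2 := key β (by linarith) (by have := min_le_left (lx + 1 - m x) (m y - ly); linarith)
      (by have := min_le_right (lx + 1 - m x) (m y - ly); linarith) (by linarith) (by
        rcases min_choice (lx + 1 - m x) (m y - ly) with h | h
        · right; left; rw [hβ, h]; ring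
        · right; right; left; rw [hβ, h]; ring)
    have hab : 0 < α + β := by linarith
    have hθ0 : 0 ≤ β / (α + β) := by positivity
    have hθ1 : β / (α + β) ≤ 1 := by rw [div_le_one hab]; linarith
    have hθ : 1 - β / (α + β) = α / (α + β) := by field_simp; ring
    have hbal : β / (α + β) * (-α) + α / (α + β) * β = 0 := by field_simp; ring
    have hone : β / (α + β) + α / (α + β) = 1 := by field_simp; ring
    refine Pk.comb hθ0 hθ1 k1 k2 ?_ ?_
    · intro z
      rw [hθ]
      apply le_of_eq
      unfold tr
      by_cases hz1 : z = x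
      · simp only [hz1, if_true]
        linear_combination hbal + m x * hone
      · by_cases hz2 : z = y
        · simp only [hz2, hyx, if_true, if_false]
          linear_combination (-1 : ℝ) * hbal + m y * hone
        · simp only [hz1, hz2, if_false]
          linear_combination m z * hone
    · rw [hθ]
      unfold gr
      have hmin : ∀ l u v a b : ℝ, (l = 0 ∨ l = 1) → l ≤ u → u ≤ l + 1 → l ≤ v → v ≤ l + 1 →
          l ≤ a * u + b * v → a * u + b * v ≤ l + 1 → a + b = 1 →
          min (a * u + b * v) 1 = a * min u 1 + b * min v 1 := by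
        intro l u v a b hl h1 h2 h3 h4 h5 h6 h7
        rcases hl with rfl | rfl
        · rw [min_eq_left (by linarith), min_eq_left (by linarith), min_eq_left (by linarith)]
        · rw [min_eq_right (by linarith), min_eq_right (by linarith), min_eq_right (by linarith)]
          linarith
      have hpt : ∀ z, min (m z) 1 = β / (α + β) * min (tr m x y (-α) z) 1 +
          α / (α + β) * min (tr m x y β z) 1 := by
        intro z
        have c1 := min_le_left (m x - lx) (ly + 1 - m y)
        have c2 := min_le_right (m x - lx) (ly + 1 - m y)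
        have c3 := min_le_left (lx + 1 - m x) (m y - ly)
        have c4 := min_le_right (lx + 1 - m x) (m y - ly)
        by_cases hz1 : z = x
        · have e : m x = β / (α + β) * (m x + -α) + α / (α + β) * (m x + β) := by
            linear_combination (-1 : ℝ) * hbal - m x * hone
          have t1 : tr m x y (-α) x = m x + -α := by simp [tr]
          have t2 : tr m x y β x = m x + β := by simp [tr]
          rw [hz1, t1, t2]
          rw [← hmin lx (m x + -α) (m x + β) _ _ hlx (by linarith) (by linarith) (by linarith)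
            (by linarith) (by rw [← e]; linarith) (by rw [← e]; linarith) hone, ← e]
        · by_cases hz2 : z = y
          · have e : m y = β / (α + β) * (m y - -α) + α / (α + β) * (m y - β) := by
              linear_combination hbal - m y * hone
            have t1 : tr m x y (-α) y = m y - -α := by simp [tr, hyx]
            have t2 : tr m x y β y = m y - β := by simp [tr, hyx]
            rw [hz2, t1, t2]
            rw [← hmin ly (m y - -α) (m y - β) _ _ hly (by linarith) (by linarith) (by linarith)
              (by linarith) (by rw [← e]; linarith) (by rw [← e]; linarith) hone, ← e]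
          · have t1 : tr m x y (-α) z = m z := by simp [tr, hz1, hz2]
            have t2 : tr m x y β z = m z := by simp [tr, hz1, hz2]
            rw [t1, t2]
            linear_combination (-(min (m z) 1)) * hone
      rw [sum_congr rfl fun z _ => hpt z, sum_add_distrib, ← mul_sum, ← mul_sum]
      apply le_of_eq
      linear_combination (-(t : ℝ)) * (-1) * hone

/-- Weights supported on a clique. -/
theorem clique_case {w : W → ℝ} (hw : ∀ x, 0 ≤ w x) (ht : 1 ≤ t)
    (hcl : ∀ x y, w x ≠ 0 → w y ≠ 0 → x ≠ y → G.Adj x y) (hN : 0 < ∑ x, w x) :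
    Pk G t w (((∑ x, w x) ^ 2 - t * ∑ x, w x ^ 2) / (2 * ∑ x, w x)) := by
  set N := ∑ x, w x with hNdef
  set A := ∑ x, w x ^ 2 with hA
  have htp : (0 : ℝ) < t := by exact_mod_cast ht
  by_cases hcase : N ^ 2 ≤ t * A
  · apply Pk.zero hw
    apply div_nonpos_of_nonpos_of_nonneg <;> linarith
  push Not at hcase
  -- the support is larger than t
  set S := univ.filter fun x => w x ≠ 0 with hS
  have hsupp : ∀ f : W → ℝ, (∀ x, w x = 0 → f x = 0) → ∑ x, f x = ∑ x ∈ S, f x := by
    intro f hf
    rw [hS, sum_filter_of_ne]
    intro x _ hx h0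
    exact hx (hf x h0)
  have hcs : N ^ 2 ≤ (S.card : ℝ) * A := by
    have h1 : N = ∑ x ∈ S, w x := hsupp w fun x h => h
    have h2 : A = ∑ x ∈ S, w x ^ 2 := hsupp (fun x => w x ^ 2) fun x h => by simp [h]
    rw [h1, h2]
    exact sq_sum_le_card_mul_sum_sq
  have hSt : (t : ℝ) < S.card := by
    by_contra hcon
    push Not at hcon
    have hA0 : 0 ≤ A := sum_nonneg fun x _ => sq_nonneg _
    have := mul_le_mul_of_nonneg_right hcon hA0
    linarith
  -- the level
  let h : ℝ → ℝ := fun B => ∑ x, min (w x) (2 * B) - 2 * t * B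
  have hcont : Continuous h := by
    apply Continuous.sub
    · apply continuous_finsetSum
      intro x _
      exact continuous_const.min (continuous_const.mul continuous_id)
    · exact continuous_const.mul continuous_id
  have hSne : S.Nonempty := by
    rw [← card_pos]
    have : (0 : ℝ) < S.card := lt_trans htp hSt
    exact_mod_cast this
  obtain ⟨B0, hB0, hB0h⟩ : ∃ B0 : ℝ, 0 < B0 ∧ 0 ≤ h B0 := by
    obtain ⟨z, hz, hzmin⟩ := exists_min_image S w hSne
    have hzp : 0 < w z := lt_of_le_of_ne (hw z) (Ne.symm (mem_filter.mp hz).2)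
    refine ⟨w z / 2, by linarith, ?_⟩
    have h1 : ∑ x, min (w x) (2 * (w z / 2)) = ∑ x ∈ S, w z := by
      rw [hsupp (fun x => min (w x) (2 * (w z / 2)))]
      · apply sum_congr rfl
        intro x hx
        have := hzmin x hx
        rw [min_eq_right (by linarith)]; ring
      · intro x hx
        rw [hx, min_eq_left (by linarith)]
    show 0 ≤ ∑ x, min (w x) (2 * (w z / 2)) - 2 * t * (w z / 2)
    rw [h1, sum_const, nsmul_eq_mul]
    have h2 : (t : ℝ) * w z ≤ S.card * w z := by gcongr
    linarith
  have hB1 : h (N / (2 * t)) ≤ 0 := by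
    show ∑ x, min (w x) (2 * (N / (2 * t))) - 2 * t * (N / (2 * t)) ≤ 0
    have h1 : ∑ x, min (w x) (2 * (N / (2 * t))) ≤ N := sum_le_sum fun x _ => min_le_left _ _
    have h2 : 2 * (t : ℝ) * (N / (2 * t)) = N := by field_simp
    linarith
  have hB01 : B0 ≤ N / (2 * t) ∨ N / (2 * t) < B0 := le_or_gt _ _
  obtain ⟨B, hBp, hB⟩ : ∃ B : ℝ, 0 < B ∧ h B = 0 := by
    rcases hB01 with hle | hlt
    · have := intermediate_value_Icc' hle hcont.continuousOn (show (0 : ℝ) ∈ Set.Icc _ _ from ⟨hB1, hB0h⟩)
      obtain ⟨B, hB, hB'⟩ := this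
      exact ⟨B, lt_of_lt_of_le hB0 hB.1, hB'⟩
    · have hNt : 0 < N / (2 * t) := by positivity
      have := intermediate_value_Icc hlt.le hcont.continuousOn (show (0 : ℝ) ∈ Set.Icc _ _ from ⟨hB1, hB0h⟩)
      obtain ⟨B, hB, hB'⟩ := this
      exact ⟨B, lt_of_lt_of_le hNt hB.1, hB'⟩
  have hBsum : ∑ x, min (w x) (2 * B) = 2 * t * B := by
    have : ∑ x, min (w x) (2 * B) - 2 * t * B = 0 := hB
    linarith
  -- the packing
  let m : W → ℝ := fun x => min (w x) (2 * B) / B
  have hm0 : ∀ x, 0 ≤ m x := fun x => div_nonneg (le_min (hw x) (by linarith)) hBp.le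
  have hm2 : ∀ x, m x ≤ 2 := fun x => by
    show min (w x) (2 * B) / B ≤ 2
    rw [div_le_iff₀ hBp]; exact min_le_right _ _
  have hmsum : ∑ x, m x = 2 * t := by
    show ∑ x, min (w x) (2 * B) / B = 2 * t
    rw [← sum_div, hBsum, mul_div_assoc, div_self hBp.ne', mul_one]
  have hmcl : ∀ x y, m x ≠ 0 → m y ≠ 0 → x ≠ y → G.Adj x y := by
    have hne : ∀ x, m x ≠ 0 → w x ≠ 0 := by
      intro x hx h0
      apply hx
      show min (w x) (2 * B) / B = 0
      rw [h0, min_eq_left (by linarith), zero_div]
    intro x y hx hy hxy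
    exact hcl x y (hne x hx) (hne y hy) hxy
  have hpk := (rounding (G := G) (t := t) _ m le_rfl hm0 hm2 hmsum hmcl).scale hBp.le
  refine hpk.mono ?_ ?_
  · intro x
    show B * (min (w x) (2 * B) / B) ≤ w x
    rw [mul_div_cancel₀ _ hBp.ne']
    exact min_le_left _ _
  · have hval : B * gr t m = ∑ x, min (w x) B - t * B := by
      unfold gr
      rw [mul_sub, mul_sum, mul_comm B (t : ℝ)]
      congr 1
      apply sum_congr rfl
      intro x _
      show B * min (min (w x) (2 * B) / B) 1 = min (w x) B
      rcases le_total (w x) B with hx | hx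
      · rw [min_eq_left (by linarith : w x ≤ 2 * B), min_eq_left hx, min_eq_left]
        · field_simp
        · rw [div_le_one hBp]; exact hx
      · rw [min_eq_right hx, min_eq_right]
        · ring
        · rw [one_le_div hBp]; exact le_min hx (by linarith)
    rw [hval, div_le_iff₀ (by linarith)]
    -- the inequality
    set Y := ∑ x, min (w x) B - t * B with hY
    let w' : W → ℝ := fun x => min (w x) (2 * B)
    let Δ : W → ℝ := fun x => w x - w' x
    have hΔ0 : ∀ x, 0 ≤ Δ x := fun x => by
      show 0 ≤ w x - min (w x) (2 * B)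
      linarith [min_le_left (w x) (2 * B)]
    have hw'0 : ∀ x, 0 ≤ w' x := fun x => le_min (hw x) (by linarith)
    have hminB : ∀ x, min (w x) B = min (w' x) B := fun x => by
      show min (w x) B = min (min (w x) (2 * B)) B
      rw [min_assoc, min_eq_right (by linarith : B ≤ 2 * B)]
    set D := ∑ x, Δ x with hD
    have hND : N = 2 * t * B + D := by
      have : D = N - 2 * t * B := by
        rw [hD, hNdef, ← hBsum, ← sum_sub_distrib]
      linarith
    -- first part
    have p1 : 4 * B * (∑ x, (w' x - min (w' x) B)) ≤ ∑ x, w' x ^ 2 := by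
      rw [mul_sum]
      apply sum_le_sum
      intro x _
      rcases le_total (w' x) B with hx | hx
      · rw [min_eq_left hx]; nlinarith [sq_nonneg (w' x)]
      · rw [min_eq_right hx]; nlinarith [sq_nonneg (w' x - 2 * B)]
    have p2 : ∑ x, (w' x - min (w' x) B) = 2 * t * B - (Y + t * B) := by
      rw [sum_sub_distrib, hY]
      have : ∑ x, w' x = 2 * t * B := hBsum
      rw [this, sum_congr rfl fun x _ => hminB x]
      ring
    have p3 : 0 ≤ Y := by
      have h1 : ∑ x, (w' x - min (w' x) B) ≤ ∑ x, w' x / 2 := by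
        apply sum_le_sum
        intro x _
        have h2 : w' x ≤ 2 * B := min_le_right _ _
        rcases le_total (w' x) B with hx | hx
        · rw [min_eq_left hx]; linarith [hw'0 x]
        · rw [min_eq_right hx]; linarith
      rw [p2, ← sum_div] at h1
      have h2 : ∑ x, w' x = 2 * t * B := hBsum
      rw [h2] at h1
      linarith
    have hfull : ∀ x, Δ x ≠ 0 → w' x = 2 * B := by
      intro x hx
      show min (w x) (2 * B) = 2 * B
      rcases le_total (w x) (2 * B) with h1 | h1
      · exfalso; apply hx
        show w x - min (w x) (2 * B) = 0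
        rw [min_eq_left h1]; ring
      · exact min_eq_right h1
    have p4 : ∑ x, w x ^ 2 = ∑ x, w' x ^ 2 + 4 * B * D + ∑ x, Δ x ^ 2 := by
      rw [hD, mul_sum, ← sum_add_distrib, ← sum_add_distrib]
      apply sum_congr rfl
      intro x _
      have e : w x = w' x + Δ x := by show w x = w' x + (w x - w' x); ring
      by_cases hx : Δ x = 0
      · rw [e, hx]; ring
      · rw [e, hfull x hx]; ring
    have p5 : D ^ 2 ≤ t * ∑ x, Δ x ^ 2 := by
      set T := univ.filter fun x => Δ x ≠ 0 with hT
      have q1 : D = ∑ x ∈ T, Δ x := by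
        rw [hD, hT, sum_filter_of_ne]
        intro x _ hx; exact hx
      have q2 : ∑ x, Δ x ^ 2 = ∑ x ∈ T, Δ x ^ 2 := by
        rw [hT, sum_filter_of_ne]
        intro x _ hx h0; exact hx (by rw [h0]; ring)
      have q3 : (T.card : ℝ) ≤ t := by
        have h1 : ∑ x ∈ T, w' x = T.card * (2 * B) := by
          rw [sum_congr rfl fun x hx => hfull x (mem_filter.mp hx).2, sum_const, nsmul_eq_mul]
        have h2 : ∑ x ∈ T, w' x ≤ ∑ x, w' x :=
          sum_le_sum_of_subset_of_nonneg (subset_univ _) fun x _ _ => hw'0 x
        have h3 : ∑ x, w' x = 2 * t * B := hBsum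
        rw [h1, h3] at h2
        have h4 : (T.card : ℝ) * (2 * B) ≤ t * (2 * B) := by linarith
        exact le_of_mul_le_mul_right h4 (by linarith)
      calc D ^ 2 = (∑ x ∈ T, Δ x) ^ 2 := by rw [q1]
        _ ≤ T.card * ∑ x ∈ T, Δ x ^ 2 := sq_sum_le_card_mul_sum_sq
        _ ≤ t * ∑ x ∈ T, Δ x ^ 2 := by
            apply mul_le_mul_of_nonneg_right q3
            exact sum_nonneg fun x _ => sq_nonneg _
        _ = t * ∑ x, Δ x ^ 2 := by rw [q2]
    rw [p2] at p1
    have hD0 : 0 ≤ D := sum_nonneg fun x _ => hΔ0 x
    have p6 : t * (4 * B * (2 * t * B - (Y + t * B))) ≤ t * ∑ x, w' x ^ 2 :=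
      mul_le_mul_of_nonneg_left p1 htp.le
    have hAeq : A = ∑ x, w' x ^ 2 + 4 * B * D + ∑ x, Δ x ^ 2 := p4
    have p7 : 0 ≤ Y * D := mul_nonneg p3 hD0
    rw [hAeq, hND]
    nlinarith

/-- Indicator of pairs that are equal or not adjacent. -/
noncomputable def cc (G : SimpleGraph W) (x y : W) : ℝ := if G.Adj x y then 0 else 1

/-- The weight of the pairs of vertices that are equal or not adjacent. -/
noncomputable def cA (G : SimpleGraph W) (w : W → ℝ) : ℝ := ∑ x, ∑ y, cc G x y * (w x * w y)

theorem cA_comb {w w' w'' : W → ℝ} {θ σ : ℝ} {x y : W} (hxy : x ≠ y) (hadj : ¬ G.Adj x y)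
    (hw : ∀ z, w z = θ * w' z + (1 - θ) * w'' z)
    (he : ∀ z, w' z - w'' z = σ * ((if z = x then 1 else 0) - (if z = y then 1 else 0))) :
    cA G w = θ * cA G w' + (1 - θ) * cA G w'' := by
  have h1 : θ * cA G w' + (1 - θ) * cA G w'' - cA G w =
      θ * (1 - θ) * ∑ u, ∑ v, cc G u v * ((w' u - w'' u) * (w' v - w'' v)) := by
    unfold cA
    rw [mul_sum, mul_sum, mul_sum, ← sum_add_distrib, ← sum_sub_distrib]
    apply sum_congr rfl
    intro u _
    rw [mul_sum, mul_sum, mul_sum, ← sum_add_distrib, ← sum_sub_distrib]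
    apply sum_congr rfl
    intro v _
    rw [hw u, hw v]
    ring
  have h2 : ∀ u, ∑ v, cc G u v * ((w' u - w'' u) * (w' v - w'' v)) =
      (w' u - w'' u) * (σ * (cc G u x - cc G u y)) := by
    intro u
    have : ∀ v, cc G u v * ((w' u - w'' u) * (w' v - w'' v)) = (w' u - w'' u) * σ *
        ((if v = x then cc G u v else 0) - (if v = y then cc G u v else 0)) := by
      intro v
      rw [he v]
      split_ifs <;> ring
    rw [sum_congr rfl fun v _ => this v, ← mul_sum, sum_sub_distrib]
    simp
    ring
  have h3 : ∑ u, (w' u - w'' u) * (σ * (cc G u x - cc G u y)) = 0 := by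
    have : ∀ u, (w' u - w'' u) * (σ * (cc G u x - cc G u y)) = σ * σ *
        ((if u = x then cc G u x - cc G u y else 0) - (if u = y then cc G u x - cc G u y else 0)) := by
      intro u
      rw [he u]
      split_ifs <;> ring
    rw [sum_congr rfl fun u _ => this u, ← mul_sum, sum_sub_distrib]
    have hadj' : ¬ G.Adj y x := fun h => hadj h.symm
    simp [cc, hadj, hadj']
  rw [sum_congr rfl fun u _ => h2 u, h3, mul_zero] at h1
  linarith

/-- The fractional packing theorem. -/
theorem frac (ht : 1 ≤ t) (n : ℕ) : ∀ w : W → ℝ, (univ.filter fun x => w x ≠ 0).card ≤ n →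
    (∀ x, 0 ≤ w x) → 0 < ∑ x, w x →
    Pk G t w (((∑ x, w x) ^ 2 - t * cA G w) / (2 * ∑ x, w x)) := by
  induction n with
  | zero =>
    intro w hc hw hN
    exfalso
    rw [Nat.le_zero, card_eq_zero] at hc
    have : ∑ x, w x = 0 := by
      apply sum_eq_zero
      intro x _
      by_contra h
      have : x ∈ univ.filter fun x => w x ≠ 0 := mem_filter.mpr ⟨mem_univ _, h⟩
      rw [hc] at this
      exact absurd this (notMem_empty x)
    linarith
  | succ n ih =>
    intro w hc hw hN
    by_cases hcl : ∀ x y, w x ≠ 0 → w y ≠ 0 → x ≠ y → G.Adj x y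
    · have h1 : cA G w = ∑ x, w x ^ 2 := by
        unfold cA
        apply sum_congr rfl
        intro x _
        rw [sum_eq_single x]
        · simp [cc]; ring
        · intro y _ hyx
          by_cases hx : w x = 0
          · simp [hx]
          by_cases hy : w y = 0
          · simp [hy]
          have := hcl x y hx hy (Ne.symm hyx)
          simp [cc, this]
        · intro h; exact absurd (mem_univ x) h
      rw [h1]
      exact clique_case hw ht hcl hN
    · push Not at hcl
      obtain ⟨x, y, hx, hy, hxy, hadj⟩ := hcl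
      have hxp : 0 < w x := lt_of_le_of_ne (hw x) (Ne.symm hx)
      have hyp : 0 < w y := lt_of_le_of_ne (hw y) (Ne.symm hy)
      set σ := w x + w y with hσ
      have hσp : 0 < σ := by linarith
      set w' := tr w x y (w y) with hw'
      set w'' := tr w x y (-(w x)) with hw''
      have x1 : w' x = σ := by simp [hw', tr, hσ]
      have y1 : w' y = 0 := by simp [hw', tr, hxy.symm]
      have x2 : w'' x = 0 := by simp [hw'', tr]
      have y2 : w'' y = σ := by simp [hw'', tr, hxy.symm, hσ]; ring
      have z1 : ∀ z, z ≠ x → z ≠ y → w' z = w z := by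
        intro z h1 h2; simp [hw', tr, h1, h2]
      have z2 : ∀ z, z ≠ x → z ≠ y → w'' z = w z := by
        intro z h1 h2; simp [hw'', tr, h1, h2]
      have s1 : ∑ z, w' z = ∑ z, w z := tr_sum hxy _
      have s2 : ∑ z, w'' z = ∑ z, w z := tr_sum hxy _
      have n1 : ∀ z, 0 ≤ w' z := by
        intro z
        by_cases h1 : z = x
        · rw [h1, x1]; exact hσp.le
        · by_cases h2 : z = y
          · rw [h2, y1]
          · rw [z1 z h1 h2]; exact hw z
      have n2 : ∀ z, 0 ≤ w'' z := by
        intro z
        by_cases h1 : z = x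
        · rw [h1, x2]
        · by_cases h2 : z = y
          · rw [h2, y2]; exact hσp.le
          · rw [z2 z h1 h2]; exact hw z
      have c1 : (univ.filter fun z => w' z ≠ 0).card ≤ n := by
        have : (univ.filter fun z => w' z ≠ 0) ⊂ (univ.filter fun z => w z ≠ 0) := by
          rw [ssubset_iff_of_subset]
          · refine ⟨y, mem_filter.mpr ⟨mem_univ _, hy⟩, ?_⟩
            simp [y1]
          · intro z hz
            simp only [mem_filter, mem_univ, true_and] at hz ⊢
            by_cases h1 : z = x
            · rw [h1]; exact hx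
            · by_cases h2 : z = y
              · rw [h2]; exact hy
              · rwa [z1 z h1 h2] at hz
        have := card_lt_card this
        omega
      have c2 : (univ.filter fun z => w'' z ≠ 0).card ≤ n := by
        have : (univ.filter fun z => w'' z ≠ 0) ⊂ (univ.filter fun z => w z ≠ 0) := by
          rw [ssubset_iff_of_subset]
          · refine ⟨x, mem_filter.mpr ⟨mem_univ _, hx⟩, ?_⟩
            simp [x2]
          · intro z hz
            simp only [mem_filter, mem_univ, true_and] at hz ⊢
            by_cases h1 : z = x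
            · rw [h1]; exact hx
            · by_cases h2 : z = y
              · rw [h2]; exact hy
              · rwa [z2 z h1 h2] at hz
        have := card_lt_card this
        omega
      have p1 := ih w' c1 n1 (by rw [s1]; exact hN)
      have p2 := ih w'' c2 n2 (by rw [s2]; exact hN)
      rw [s1] at p1
      rw [s2] at p2
      have hθ0 : 0 ≤ w x / σ := by positivity
      have hθ1 : w x / σ ≤ 1 := by rw [div_le_one hσp]; linarith
      have hθ : 1 - w x / σ = w y / σ := by rw [eq_div_iff hσp.ne']; field_simp; ring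
      have hone : w x / σ + w y / σ = 1 := by rw [← hθ]; ring
      have hcomb : ∀ z, w z = w x / σ * w' z + (1 - w x / σ) * w'' z := by
        intro z
        rw [hθ]
        by_cases h1 : z = x
        · rw [h1, x1, x2]; field_simp; ring
        · by_cases h2 : z = y
          · rw [h2, y1, y2]; field_simp; ring
          · rw [z1 z h1 h2, z2 z h1 h2, ← add_mul, hone, one_mul]
      have hcA := cA_comb (G := G) (w := w) (w' := w') (w'' := w'') (θ := w x / σ) (σ := σ)
        hxy hadj hcomb (by
          intro z
          by_cases h1 : z = x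
          · rw [h1, x1, x2]; simp [hxy]
          · by_cases h2 : z = y
            · rw [h2, y1, y2]; simp [hxy.symm]
            · rw [z1 z h1 h2, z2 z h1 h2]; simp [h1, h2])
      refine Pk.comb hθ0 hθ1 p1 p2 (fun z => (hcomb z).ge) ?_
      rw [hcA]
      have hN' : (0 : ℝ) < 2 * ∑ x, w x := by linarith
      apply le_of_eq
      field_simp
      ring

/-- The case of the constant weight `1`. -/
theorem frac_one [Nonempty W] (ht : 1 ≤ t) :
    Pk G t (fun _ => 1) (((Fintype.card W : ℝ) ^ 2 -
      t * ((univ : Finset (W × W)).filter fun p => ¬ G.Adj p.1 p.2).card) /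
        (2 * Fintype.card W)) := by
  have h := frac (G := G) (t := t) ht _ (fun _ : W => (1 : ℝ)) le_rfl (fun _ => zero_le_one) (by
    simp [Fintype.card_pos])
  have h1 : cA G (fun _ : W => (1 : ℝ)) =
      ((univ : Finset (W × W)).filter fun p => ¬ G.Adj p.1 p.2).card := by
    unfold cA cc
    rw [card_filter, ← univ_product_univ, sum_product]
    push_cast
    apply sum_congr rfl
    intro x _
    apply sum_congr rfl
    intro y _
    by_cases h : G.Adj x y <;> simp [h]
  rw [h1] at h
  simpa using h

end Pool.Agent.Q263.InvT
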