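import Pool.Agent.Q263.InvT.Frac
import Pool.Agent.Q263.InvT.Box

/-!
# Disjoint sets of `2 t` vertices with many edges
-/

set_option autoImplicit false
set_option linter.unusedSectionVars false
open Finset
open scoped Classical

namespace Pool.Agent.Q263.InvT

variable {V : Type*} [Fintype V] (G : SimpleGraph V)

/-- The number of ordered pairs of adjacent vertices of `R`. -/
noncomputable def E2 (R : Finset V) : ℕ := ((R ×ˢ R).filter fun p => G.Adj p.1 p.2).card

/-- The degree into `R`. -/
noncomputable def dg (R : Finset V) (v : V) : ℕ := (R.filter fun y => G.Adj v y).card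

/-- The gain of a set of `2 t` vertices. -/
noncomputable def gv (t : ℕ) (B : Finset V) : ℝ := (E2 G B : ℝ) / 2 - 2 * t * (t - 1)

variable {G}

theorem E2_eq (R : Finset V) : E2 G R = ∑ v ∈ R, dg G R v := by
  unfold E2 dg
  rw [card_filter, sum_product]
  apply sum_congr rfl
  intro v _
  rw [← card_filter]

theorem E2_le (R : Finset V) : E2 G R ≤ R.card ^ 2 := by
  unfold E2
  refine (card_filter_le _ _).trans ?_
  rw [card_product, sq]

theorem dg_le (R : Finset V) (v : V) : dg G R v ≤ R.card := card_filter_le _ _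

section tuples

variable {q : ℕ}

theorem prod_two {i j : Fin q} (hij : i ≠ j) (A B C : ℝ) :
    ∏ k : Fin q, (if k = i then A else if k = j then B else C) = A * B * C ^ (q - 2) := by
  rw [← mul_prod_erase univ _ (mem_univ i)]
  have hj : j ∈ univ.erase i := mem_erase.mpr ⟨hij.symm, mem_univ _⟩
  rw [← mul_prod_erase (univ.erase i) _ hj]
  simp only [if_true, hij.symm, if_false]
  have : ∏ k ∈ (univ.erase i).erase j, (if k = i then A else if k = j then B else C) =
      ∏ k ∈ (univ.erase i).erase j, C := by
    apply prod_congr rfl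
    intro k hk
    rw [mem_erase, mem_erase] at hk
    simp [hk.1, hk.2.1]
  rw [this, prod_const, card_erase_of_mem hj, card_erase_of_mem (mem_univ i), card_univ,
    Fintype.card_fin, mul_assoc]
  congr 2

theorem prod_one' {i : Fin q} (A C : ℝ) :
    ∏ k : Fin q, (if k = i then A else C) = A * C ^ (q - 1) := by
  rw [← mul_prod_erase univ _ (mem_univ i)]
  simp only [if_true]
  have : ∏ k ∈ univ.erase i, (if k = i then A else C) = ∏ k ∈ univ.erase i, C := by
    apply prod_congr rfl
    intro k hk
    rw [mem_erase] at hk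
    simp [hk.1]
  rw [this, prod_const, card_erase_of_mem (mem_univ i), card_univ, Fintype.card_fin]

theorem sum_tuple (R : Finset V) (g : Fin q → V → ℝ) :
    ∑ x ∈ Fintype.piFinset (fun _ : Fin q => R), ∏ k, g k (x k) = ∏ k, ∑ a ∈ R, g k a :=
  (Finset.prod_univ_sum (fun _ => R) g).symm

theorem sum_deg (R : Finset V) (i : Fin q) :
    ∑ x ∈ Fintype.piFinset (fun _ : Fin q => R), (dg G R (x i) : ℝ) =
      E2 G R * (R.card : ℝ) ^ (q - 1) := by
  have h := sum_tuple (q := q) R fun k a => if k = i then (dg G R a : ℝ) else 1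
  have h1 : ∀ x : Fin q → V, ∏ k, (if k = i then (dg G R (x k) : ℝ) else 1) = dg G R (x i) := by
    intro x
    rw [prod_ite_eq' univ i fun k => (dg G R (x k) : ℝ)]
    simp
  rw [sum_congr rfl fun x _ => h1 x] at h
  rw [h, ← prod_one' (i := i)]
  apply prod_congr rfl
  intro k _
  by_cases hk : k = i
  · simp only [hk, if_true]
    rw [E2_eq]; push_cast; rfl
  · simp [hk]

theorem sum_adj (R : Finset V) {i j : Fin q} (hij : i ≠ j) :
    ∑ x ∈ Fintype.piFinset (fun _ : Fin q => R), (if G.Adj (x i) (x j) then (1 : ℝ) else 0) =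
      E2 G R * (R.card : ℝ) ^ (q - 2) := by
  have h1 : ∀ x ∈ Fintype.piFinset (fun _ : Fin q => R),
      (if G.Adj (x i) (x j) then (1 : ℝ) else 0) =
        ∑ a ∈ R, ∏ k, (if k = i then (if x k = a then (1 : ℝ) else 0) else
          if k = j then (if G.Adj a (x k) then 1 else 0) else 1) := by
    intro x hx
    have hxi : x i ∈ R := (Fintype.mem_piFinset.mp hx) i
    rw [sum_eq_single (x i)]
    · rw [← mul_prod_erase univ _ (mem_univ i)]
      have hj : j ∈ univ.erase i := mem_erase.mpr ⟨hij.symm, mem_univ _⟩
      rw [← mul_prod_erase (univ.erase i) _ hj]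
      have : ∏ k ∈ (univ.erase i).erase j, (if k = i then (if x k = x i then (1 : ℝ) else 0) else
          if k = j then (if G.Adj (x i) (x k) then 1 else 0) else 1) = 1 := by
        apply prod_eq_one
        intro k hk
        rw [mem_erase, mem_erase] at hk
        simp [hk.1, hk.2.1]
      rw [this]
      simp [hij.symm]
    · intro a _ ha
      apply prod_eq_zero (mem_univ i)
      simp [Ne.symm ha]
    · intro h; exact absurd hxi h
  rw [sum_congr rfl h1, sum_comm]
  have h2 : ∀ a ∈ R, ∑ x ∈ Fintype.piFinset (fun _ : Fin q => R),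
      ∏ k, (if k = i then (if x k = a then (1 : ℝ) else 0) else
          if k = j then (if G.Adj a (x k) then 1 else 0) else 1) =
        dg G R a * (R.card : ℝ) ^ (q - 2) := by
    intro a ha
    rw [sum_tuple (q := q) R fun k v => if k = i then (if v = a then (1 : ℝ) else 0) else
          if k = j then (if G.Adj a v then 1 else 0) else 1]
    have : (1 : ℝ) * (dg G R a : ℝ) * (R.card : ℝ) ^ (q - 2) =
        dg G R a * (R.card : ℝ) ^ (q - 2) := by ring
    rw [← this, ← prod_two hij]
    apply prod_congr rfl
    intro k _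
    by_cases hk : k = i
    · simp [hk, ha]
    · by_cases hk' : k = j
      · simp only [hk', hij.symm, if_true, if_false]
        unfold dg
        rw [card_filter]; push_cast; rfl
      · simp [hk, hk']
  rw [sum_congr rfl h2, ← sum_mul, E2_eq]
  push_cast; rfl

end tuples

/-- The positions of a new block. -/
noncomputable def pos {q s : ℕ} (U : Fin q → ℕ) (m : Fin q → Fin 3) : Finset (Fin q × Fin s) :=
  univ.filter fun p => U p.1 ≤ p.2.val ∧ p.2.val < U p.1 + (m p.1).val

theorem fib_card {s U m : ℕ} (h : U + m ≤ s) :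
    ((univ : Finset (Fin s)).filter fun a => U ≤ a.val ∧ a.val < U + m).card = m := by
  have : ((univ : Finset (Fin s)).filter fun a => U ≤ a.val ∧ a.val < U + m).map Fin.valEmbedding =
      Finset.Ico U (U + m) := by
    ext x
    rw [mem_map, Finset.mem_Ico]
    constructor
    · rintro ⟨a, ha, rfl⟩
      exact (mem_filter.mp ha).2
    · rintro ⟨h1, h2⟩
      exact ⟨⟨x, by omega⟩, mem_filter.mpr ⟨mem_univ _, h1, h2⟩, rfl⟩
  rw [← card_map Fin.valEmbedding, this, Nat.card_Ico]
  omega

theorem pos_card {q s : ℕ} {U : Fin q → ℕ} {m : Fin q → Fin 3} (h : ∀ i, U i + (m i).val ≤ s) :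
    (pos (s := s) U m).card = ∑ i, (m i).val := by
  unfold pos
  rw [← univ_product_univ, card_filter, sum_product]
  apply sum_congr rfl
  intro i _
  rw [← card_filter]
  exact fib_card (h i)

theorem pos_pairs {q s : ℕ} {U : Fin q → ℕ} {m : Fin q → Fin 3} (h : ∀ i, U i + (m i).val ≤ s) :
    (((pos (s := s) U m) ×ˢ (pos (s := s) U m)).filter fun p => p.1.1 = p.2.1).card =
      ∑ i, (m i).val ^ 2 := by
  have h1 : ∀ i : Fin q, ((pos (s := s) U m).filter fun p => p.1 = i).card = (m i).val := by
    intro i
    rw [← fib_card (h i)]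
    apply card_bij (fun p _ => p.2)
    · intro p hp
      simp only [pos, mem_filter, mem_univ, true_and] at hp ⊢
      rw [← hp.2]; exact hp.1
    · intro p hp p' hp' heq
      simp only [mem_filter] at hp hp'
      exact Prod.ext (hp.2.trans hp'.2.symm) heq
    · intro a ha
      simp only [mem_filter, mem_univ, true_and] at ha
      exact ⟨(i, a), by simp [pos, ha], rfl⟩
  rw [card_filter, sum_product]
  have h2 : ∀ x ∈ pos (s := s) U m, ∑ y ∈ pos (s := s) U m, (if x.1 = y.1 then 1 else 0) =
      (m x.1).val := by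
    intro x _
    rw [← card_filter, ← h1 x.1]
    congr 1
    ext y
    simp only [mem_filter]
    constructor
    · rintro ⟨a, b⟩; exact ⟨a, b.symm⟩
    · rintro ⟨a, b⟩; exact ⟨a, b.symm⟩
  rw [sum_congr rfl h2]
  rw [← sum_fiberwise_of_maps_to (s := pos (s := s) U m) (t := (univ : Finset (Fin q)))
    (g := fun x => x.1) (fun x _ => mem_univ _) (fun x => (m x.1).val)]
  apply sum_congr rfl
  intro i _
  have : ∀ x ∈ (pos (s := s) U m).filter (fun x => x.1 = i), (m x.1).val = (m i).val := by
    intro x hx
    rw [(mem_filter.mp hx).2]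
  rw [sum_congr rfl this, sum_const, h1 i, smul_eq_mul, sq]

/-- The used parts of the classes. -/
def use {q : ℕ} (l : List (Fin q → Fin 3)) (i : Fin q) : ℕ := (l.map fun m => (m i).val).sum

theorem seq {q s t : ℕ} {H : SimpleGraph (Fin q)} {f : Fin q × Fin s → V}
    (hf : Function.Injective f)
    (hH : ∀ i j a b, H.Adj i j → G.Adj (f (i, a)) (f (j, b))) (ht : 1 ≤ t) :
    ∀ l : List (Fin q → Fin 3), (∀ m ∈ l, IsB H t m) → (∀ i, use l i ≤ s) →
      ∃ 𝓑 : Finset (Finset V), (∀ B ∈ 𝓑, B.card = 2 * t) ∧
        (∀ B ∈ 𝓑, B ⊆ ((univ : Finset (Fin q × Fin s)).filter fun p => p.2.val < use l p.1).image f) ∧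
        (∀ B ∈ 𝓑, ∀ B' ∈ 𝓑, B ≠ B' → Disjoint B B') ∧
        (l.map fun m => gn t m).sum ≤ ∑ B ∈ 𝓑, gv G t B := by
  intro l
  induction l with
  | nil =>
    intro _ _
    exact ⟨∅, by simp, by simp, by simp, by simp⟩
  | cons m l ih =>
    intro hB hs
    have hm := hB m (by simp)
    have huse : ∀ i, use (m :: l) i = (m i).val + use l i := by
      intro i; simp [use]
    have hs' : ∀ i, use l i ≤ s := fun i => by have := hs i; rw [huse] at this; omega
    obtain ⟨𝓑, h1, h2, h3, h4⟩ := ih (fun m' hm' => hB m' (by simp [hm'])) hs'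
    have hUm : ∀ i, use l i + (m i).val ≤ s := fun i => by
      have := hs i; rw [huse] at this; omega
    set P := pos (s := s) (use l) m with hP
    set B0 := P.image f with hB0
    have hB0c : B0.card = 2 * t := by
      rw [hB0, card_image_of_injective _ hf, hP, pos_card hUm]
      exact hm.1
    have hdis : ∀ B ∈ 𝓑, Disjoint B0 B := by
      intro B hBB
      rw [disjoint_left]
      intro z hz hzB
      have hz' := h2 B hBB hzB
      rw [hB0, mem_image] at hz
      rw [mem_image] at hz'
      obtain ⟨p, hp, rfl⟩ := hz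
      obtain ⟨p', hp', hpp⟩ := hz'
      have := hf hpp
      subst this
      simp only [hP, pos, mem_filter, mem_univ, true_and] at hp hp'
      omega
    have hne : B0 ∉ 𝓑 := by
      intro hmem
      have h5 := hdis B0 hmem
      rw [disjoint_self] at h5
      have : B0.card = 0 := by rw [h5]; rfl
      omega
    -- the gain of the new block
    have hgain : gn t m ≤ gv G t B0 := by
      have hE : (2 * t) ^ 2 ≤ E2 G B0 + ∑ i, (m i).val ^ 2 := by
        rw [← pos_pairs hUm, ← hP]
        have hpp : (P ×ˢ P).card = (2 * t) ^ 2 := by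
          rw [card_product, hP, pos_card hUm, hm.1, sq]
        rw [← hpp, ← card_filter_add_card_filter_not (s := P ×ˢ P) (fun p => p.1.1 = p.2.1), add_comm]
        apply Nat.add_le_add_right
        unfold E2
        apply card_le_card_of_injOn (fun p => (f p.1, f p.2))
        · rintro ⟨p, p'⟩ hp
          rw [mem_coe, mem_filter, mem_product] at hp
          rw [mem_coe, mem_filter, mem_product]
          refine ⟨⟨mem_image_of_mem _ hp.1.1, mem_image_of_mem _ hp.1.2⟩, ?_⟩
          have e1 : m p.1 ≠ 0 := by
            intro h0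
            have := hp.1.1
            simp [hP, pos, h0] at this
            omega
          have e2 : m p'.1 ≠ 0 := by
            intro h0
            have := hp.1.2
            simp [hP, pos, h0] at this
            omega
          exact hH p.1 p'.1 p.2 p'.2 (hm.2 _ _ e1 e2 hp.2)
        · rintro ⟨p, p'⟩ _ ⟨r, r'⟩ _ h
          simp only [Prod.mk.injEq] at h
          exact Prod.ext (hf h.1) (hf h.2)
      have hsq : ∀ k : Fin 3, (k.val : ℝ) ^ 2 = 3 * k.val - 2 * min (k.val : ℝ) 1 := by
        intro k
        fin_cases k <;> norm_num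
      have hE' : ((2 * t : ℕ) : ℝ) ^ 2 ≤ E2 G B0 + ∑ i, ((m i).val : ℝ) ^ 2 := by
        exact_mod_cast hE
      rw [sum_congr rfl fun i _ => hsq (m i), sum_sub_distrib, ← mul_sum, ← mul_sum] at hE'
      have hsum : ∑ i, ((m i).val : ℝ) = 2 * t := by exact_mod_cast hm.1
      rw [hsum] at hE'
      unfold gn gv
      push_cast at hE'
      nlinarith
    refine ⟨insert B0 𝓑, ?_, ?_, ?_, ?_⟩
    · intro B hBB
      rw [mem_insert] at hBB
      rcases hBB with rfl | hBB
      · exact hB0c
      · exact h1 B hBB
    · intro B hBB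
      rw [mem_insert] at hBB
      rcases hBB with rfl | hBB
      · apply image_subset_image
        intro p hp
        simp only [hP, pos, mem_filter, mem_univ, true_and] at hp ⊢
        rw [huse]; omega
      · refine (h2 B hBB).trans (image_subset_image ?_)
        intro p hp
        simp only [mem_filter, mem_univ, true_and] at hp ⊢
        rw [huse]; omega
    · intro B hBB B' hBB' hne'
      rw [mem_insert] at hBB hBB'
      rcases hBB with rfl | hBB <;> rcases hBB' with rfl | hBB'
      · exact absurd rfl hne'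
      · exact hdis B' hBB'
      · exact (hdis B hBB).symm
      · exact h3 B hBB B' hBB' hne'
    · rw [sum_insert hne, List.map_cons, List.sum_cons]
      exact add_le_add hgain h4

end Pool.Agent.Q263.InvT
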