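import Pool.Agent.Q263.InvT.CoreE
import Pool.Agent.Q263.Circ.Main

/-!
# Inverse Turán numbers of even paths: balanced complete multipartite host graphs
-/

set_option autoImplicit false
set_option linter.unusedSectionVars false
open Finset
open scoped Classical

namespace Pool.Agent.Q263.InvT

open Pool.Agent.Q263.Circ

variable {V : Type*} [Fintype V] {G : SimpleGraph V}

theorem E2_split {U C : Finset V} (h : ∀ x ∈ C, ∀ y ∈ U, G.Adj x y → y ∈ C) :
    E2 G U ≤ E2 G C + E2 G (U \ C) := by
  unfold E2
  rw [← card_union_of_disjoint]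
  · apply card_le_card
    rintro ⟨x, y⟩ hp
    simp only [mem_union, mem_filter, mem_product, mem_sdiff] at hp ⊢
    by_cases hx : x ∈ C
    · left; exact ⟨⟨hx, h x hx y hp.1.2 hp.2⟩, hp.2⟩
    · right
      refine ⟨⟨⟨hp.1.1, hx⟩, hp.1.2, fun hy => hx (h y hy x hp.1.1 hp.2.symm)⟩, hp.2⟩
  · rw [disjoint_left]
    rintro ⟨x, y⟩ hp hp'
    simp only [mem_filter, mem_product, mem_sdiff] at hp hp'
    exact hp'.1.1.2 hp.1.1

theorem E2_erase {U : Finset V} {v : V} :
    E2 G U ≤ E2 G (U.erase v) + 2 * dg G U v := by
  have h1 : ((({v} : Finset V) ×ˢ U).filter fun p => G.Adj p.1 p.2).card ≤ dg G U v := by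
    unfold dg
    apply card_le_card_of_injOn (fun p => p.2)
    · rintro ⟨x, y⟩ hp
      simp only [coe_filter, mem_product, mem_singleton, Set.mem_ofPred_eq] at hp ⊢
      exact ⟨hp.1.2, hp.1.1 ▸ hp.2⟩
    · rintro ⟨x, y⟩ hp ⟨x', y'⟩ hp' h
      simp only [coe_filter, mem_product, mem_singleton, Set.mem_ofPred_eq] at hp hp' h
      exact Prod.ext (hp.1.1.trans hp'.1.1.symm) h
  have h2 : ((U ×ˢ ({v} : Finset V)).filter fun p => G.Adj p.1 p.2).card ≤ dg G U v := by
    unfold dg
    apply card_le_card_of_injOn (fun p => p.1)
    · rintro ⟨x, y⟩ hp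
      simp only [coe_filter, mem_product, mem_singleton, Set.mem_ofPred_eq] at hp ⊢
      exact ⟨hp.1.1, hp.1.2 ▸ hp.2.symm⟩
    · rintro ⟨x, y⟩ hp ⟨x', y'⟩ hp' h
      simp only [coe_filter, mem_product, mem_singleton, Set.mem_ofPred_eq] at hp hp' h
      exact Prod.ext h (hp.1.2.trans hp'.1.2.symm)
  have h3 : ((U ×ˢ U).filter fun p => G.Adj p.1 p.2) ⊆
      (((U.erase v) ×ˢ (U.erase v)).filter fun p => G.Adj p.1 p.2) ∪
        ((({v} : Finset V) ×ˢ U).filter fun p => G.Adj p.1 p.2) ∪
        ((U ×ˢ ({v} : Finset V)).filter fun p => G.Adj p.1 p.2) := by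
    rintro ⟨x, y⟩ hp
    simp only [mem_union, mem_filter, mem_product, mem_erase, mem_singleton] at hp ⊢
    tauto
  unfold E2
  have h4 := card_le_card h3
  have h5 := card_union_le ((((U.erase v) ×ˢ (U.erase v)).filter fun p => G.Adj p.1 p.2) ∪
        ((({v} : Finset V) ×ˢ U).filter fun p => G.Adj p.1 p.2))
        ((U ×ˢ ({v} : Finset V)).filter fun p => G.Adj p.1 p.2)
  have h6 := card_union_le (((U.erase v) ×ˢ (U.erase v)).filter fun p => G.Adj p.1 p.2)
        ((({v} : Finset V) ×ˢ U).filter fun p => G.Adj p.1 p.2)
  omega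

/-- The Turán bound for graphs with a proper colouring with `t` colours. -/
theorem E2_color {t : ℕ} (c : V → Fin t) (hc : ∀ x y, G.Adj x y → c x ≠ c y) (C : Finset V) :
    t * E2 G C + C.card ^ 2 ≤ t * C.card ^ 2 := by
  have h1 : E2 G C + ∑ i : Fin t, (C.filter fun x => c x = i).card ^ 2 ≤ C.card ^ 2 := by
    have e1 : ∑ i : Fin t, (C.filter fun x => c x = i).card ^ 2 =
        ((C ×ˢ C).filter fun p => c p.1 = c p.2).card := by
      rw [card_filter, sum_product]
      have e2 : ∀ x ∈ C, ∑ y ∈ C, (if c x = c y then 1 else 0) =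
          (C.filter fun y => c y = c x).card := by
        intro x _
        rw [← card_filter]
        congr 1
        ext y
        simp only [mem_filter]
        constructor
        · rintro ⟨a, b⟩; exact ⟨a, b.symm⟩
        · rintro ⟨a, b⟩; exact ⟨a, b.symm⟩
      rw [sum_congr rfl e2]
      rw [← sum_fiberwise_of_maps_to (s := C) (t := (univ : Finset (Fin t)))
        (g := c) (fun x _ => mem_univ _) (fun x => (C.filter fun y => c y = c x).card)]
      apply sum_congr rfl
      intro i _
      have : ∀ x ∈ C.filter (fun x => c x = i), (C.filter fun y => c y = c x).card =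
          (C.filter fun x => c x = i).card := by
        intro x hx
        rw [(mem_filter.mp hx).2]
      rw [sum_congr rfl this, sum_const, smul_eq_mul, sq]
    rw [e1]
    unfold E2
    rw [← card_union_of_disjoint]
    · refine (card_le_card (union_subset (filter_subset _ _) (filter_subset _ _))).trans ?_
      rw [card_product, sq]
    · rw [disjoint_left]
      intro p hp hp'
      exact hc _ _ (mem_filter.mp hp).2 (mem_filter.mp hp').2
  have h2 : C.card ^ 2 ≤ t * ∑ i : Fin t, (C.filter fun x => c x = i).card ^ 2 := by
    have h3 : C.card = ∑ i : Fin t, (C.filter fun x => c x = i).card :=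
      card_eq_sum_card_fiberwise fun x _ => mem_univ _
    have h4 := sq_sum_le_card_mul_sum_sq (s := (univ : Finset (Fin t)))
      (f := fun i => (C.filter fun x => c x = i).card)
    rw [card_univ, Fintype.card_fin, ← h3] at h4
    exact h4
  nlinarith

/-- A properly `t`-coloured graph without a path with `2 t` edges has at most `(t - 1) n` edges. -/
theorem few_edges {t : ℕ} (ht : 2 ≤ t) (c : V → Fin t) (hc : ∀ x y, G.Adj x y → c x ≠ c y)
    (hP : ∀ l, IsP G univ l → l.length ≤ 2 * t) :
    ∀ (n : ℕ) (U : Finset V), U.card = n → E2 G U ≤ 2 * (t - 1) * U.card := by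
  intro n
  induction n using Nat.strong_induction_on with
  | _ n ih =>
    intro U hn
    rcases U.eq_empty_or_nonempty with rfl | hne
    · simp [E2]
    by_cases hlow : ∃ v ∈ U, dg G U v ≤ t - 1
    · obtain ⟨v, hv, hd⟩ := hlow
      have hcard : (U.erase v).card + 1 = U.card := card_erase_add_one hv
      have h1 := ih _ (by omega) (U.erase v) rfl
      have h2 := E2_erase (G := G) (U := U) (v := v)
      calc E2 G U ≤ E2 G (U.erase v) + 2 * dg G U v := h2
        _ ≤ 2 * (t - 1) * (U.erase v).card + 2 * (t - 1) := by
            have := Nat.mul_le_mul_left 2 hd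
            omega
        _ = 2 * (t - 1) * U.card := by rw [← hcard]; ring
    · push Not at hlow
      obtain ⟨l, hl, hlne, hlmax⟩ := exists_longest (G := G) U hne
      have hlt : l.length ≤ 2 * t := hP l ⟨hl.1, hl.2.1, fun _ _ => mem_univ _⟩
      have ha : l.head? = some (l.head hlne) := List.head?_eq_some_head hlne
      have hb : l.getLast? = some (l.getLast hlne) := List.getLast?_eq_some_getLast hlne
      set a := l.head hlne with hadef
      set b := l.getLast hlne with hbdef
      have haU : a ∈ U := hl.2.2 _ (List.head_mem hlne)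
      have hbU : b ∈ U := hl.2.2 _ (List.getLast_mem hlne)
      -- extension of paths at the end
      have hext : ∀ l' : List V, l'.Perm l → l'.IsChain G.Adj → ∀ x, l'.getLast? = some x →
          ∀ y ∈ U, G.Adj x y → y ∈ l := by
        intro l' hperm hch x hx y hyU hxy
        by_contra hyl
        have hyl' : y ∉ l' := fun h => hyl (hperm.mem_iff.mp h)
        have hp : IsP G U (l' ++ [y]) := by
          refine ⟨?_, ?_, ?_⟩
          · rw [List.nodup_append]
            refine ⟨hperm.nodup_iff.mpr hl.1, List.nodup_singleton y, ?_⟩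
            intro u hu v hv huv
            rw [List.mem_singleton] at hv
            rw [huv, hv] at hu
            exact hyl' hu
          · refine List.IsChain.append hch (List.isChain_singleton y) ?_
            intro u hu v hv
            rw [Option.mem_def, hx, Option.some_inj] at hu
            rw [Option.mem_def, List.head?_cons, Option.some_inj] at hv
            rw [← hu, ← hv]; exact hxy
          · intro u hu
            rw [List.mem_append, List.mem_singleton] at hu
            rcases hu with hu | hu
            · exact hl.2.2 u (hperm.mem_iff.mp hu)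
            · rw [hu]; exact hyU
        have := hlmax _ hp
        rw [List.length_append, hperm.length_eq, List.length_singleton] at this
        omega
      have hNb : ∀ y ∈ U, G.Adj b y → y ∈ l := hext l (List.Perm.refl l) hl.2.1 b hb
      have hNa : ∀ y ∈ U, G.Adj a y → y ∈ l := by
        refine hext l.reverse (List.reverse_perm l) ?_ a ?_
        · rw [List.isChain_reverse]
          exact hl.2.1.imp fun _ _ h => h.symm
        · rw [List.getLast?_reverse, ha]
      have hda : l.length ≤ 2 * (U.filter fun y => G.Adj a y).card := by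
        have := hlow a haU
        unfold dg at this
        omega
      have hdb : l.length ≤ 2 * (U.filter fun y => G.Adj b y).card := by
        have := hlow b hbU
        unfold dg at this
        omega
      obtain ⟨cy, hperm, hcyc⟩ := exists_cyc hl ha hb hNa hNb hda hdb
      set C := l.toFinset with hCdef
      have hCU : C ⊆ U := fun x hx => hl.2.2 x (List.mem_toFinset.mp hx)
      have hCc : C.card = l.length := List.toFinset_card_of_nodup hl.1
      have hclosed : ∀ x ∈ C, ∀ y ∈ U, G.Adj x y → y ∈ C := by
        intro x hx y hyU hxy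
        rw [hCdef, List.mem_toFinset] at hx ⊢
        obtain ⟨c', hc'1, hc'2, hc'3⟩ := cyc_rotate hcyc (hperm.mem_iff.mpr hx)
        exact hext c' (hc'1.trans hperm) hc'2 x hc'3 y hyU hxy
      have h1 := E2_split hclosed
      have h2 := E2_color c hc C
      have hCpos : 0 < C.card := by
        rw [hCc]; exact List.length_pos_iff.mpr hlne
      have hsd := card_sdiff_add_card_eq_card hCU
      have h3 := ih _ (by omega) (U \ C) rfl
      have h4 : E2 G C ≤ 2 * (t - 1) * C.card := by
        obtain ⟨u, rfl⟩ : ∃ u, t = u + 1 := ⟨t - 1, by omega⟩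
        rw [Nat.add_sub_cancel]
        have hC2 : C.card ≤ 2 * (u + 1) := by rw [hCc]; exact hlt
        have h5 : (u + 1) * E2 G C ≤ (u + 1) * (2 * u * C.card) := by
          have h6 : (u + 1) * E2 G C ≤ u * C.card ^ 2 := by nlinarith
          calc (u + 1) * E2 G C ≤ u * C.card ^ 2 := h6
            _ = u * C.card * C.card := by ring
            _ ≤ u * C.card * (2 * (u + 1)) := Nat.mul_le_mul_left _ hC2
            _ = (u + 1) * (2 * u * C.card) := by ring
        exact Nat.le_of_mul_le_mul_left h5 (by omega)
      calc E2 G U ≤ E2 G C + E2 G (U \ C) := h1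
        _ ≤ 2 * (t - 1) * C.card + 2 * (t - 1) * (U \ C).card := Nat.add_le_add h4 h3
        _ = 2 * (t - 1) * U.card := by rw [← hsd]; ring

/-- A properly `t`-coloured graph without a copy of the path with `2 t` edges. -/
theorem few_edges' {t : ℕ} (ht : 2 ≤ t) (c : V → Fin t) (hc : ∀ x y, G.Adj x y → c x ≠ c y)
    (hfree : (SimpleGraph.pathGraph (2 * t + 1)).Free G) :
    G.edgeSet.ncard ≤ (t - 1) * Fintype.card V := by
  have h1 : ∀ l, IsP G univ l → l.length ≤ 2 * t := by
    intro l hl
    by_contra hcon
    push Not at hcon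
    apply hfree
    refine ⟨⟨⟨fun i => l[i.val]'(by have := i.isLt; omega), ?_⟩, ?_⟩⟩
    · intro i j hij
      rw [SimpleGraph.pathGraph_adj] at hij
      have hch := List.isChain_iff_getElem.mp hl.2.1
      rcases hij with h | h
      · have h2 := hch i.val (by have := j.isLt; omega)
        have e : l[i.val + 1]'(by have := j.isLt; omega) = l[j.val]'(by have := j.isLt; omega) := by
          congr 1
        rw [e] at h2
        exact h2
      · have h2 := hch j.val (by have := i.isLt; omega)
        have e : l[j.val + 1]'(by have := i.isLt; omega) = l[i.val]'(by have := i.isLt; omega) := by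
          congr 1
        rw [e] at h2
        exact h2.symm
    · intro i j hij
      exact Fin.ext ((List.Nodup.getElem_inj_iff hl.1).mp hij)
  have h2 := few_edges ht c hc h1 _ univ rfl
  have h3 : 2 * G.edgeSet.ncard = E2 G univ := by
    rw [two_edges]
    unfold E2
    rw [univ_product_univ]
  rw [← h3, card_univ] at h2
  have : 2 * G.edgeSet.ncard ≤ 2 * ((t - 1) * Fintype.card V) := by
    rw [← mul_assoc]; exact h2
  omega

end Pool.Agent.Q263.InvT
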